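import Pool.Agent.LibRG11.Defs
import Pool.Agent.LibAC34.Stmt2

/-!
The Abel-Jacobi image of a combination.
-/

open scoped Classical

namespace Pool.Agent.LibRG11

variable {G : Type} [AddCommGroup G] {r D : ℕ}

/-- the element `det ((M | z)ᵀ (N | g))` -/
def bdG (M : Matrix (Fin r) (Fin D) ℤ) (z : Fin r → ℤ)
    (N : Matrix (Fin r) (Fin D) ℤ) (g : Fin r → G) : G :=
  ∑ i, ((LibAC34.bd M z).transpose * LibAC34.bd N (Pi.single i 1)).det • g i

/-- the Abel-Jacobi image -/
def AJ (c : Fc r D G) (M : Matrix (Fin r) (Fin D) ℤ) (z : Fin r → ℤ) : G :=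
  c.sum fun p m => (m * (M.transpose * p.1).det) • bdG M z p.1 p.2

end Pool.Agent.LibRG11
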