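import Pool.Agent.LibRG11.Final

/-!
Non-degeneracy implies that the zero-cycles on the surface are torsion.
-/

open WeierstrassCurve Pool.Agent.LibBH2 Pool.Agent.LibIG50 Pool.Agent.LibCHd Pool.Agent.LibGG
  Pool.Agent.LibAC34 Pool.Agent.LibAF11
open scoped Classical

namespace Pool.Agent.LibRG11

section comb
variable {G : Type} [AddCommGroup G]

/-- the combination `(P, Q) - (P, 0) - (0, Q) + (0, 0)`, `a = (P, Q)` -/
noncomputable def qd (a : Fin 2 → G) : Fc 2 0 G :=
  Finsupp.single (0, a) 1 - Finsupp.single (0, Function.update a 1 0) 1 -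
    Finsupp.single (0, Function.update a 0 0) 1 + Finsupp.single (0, 0) 1

theorem qd_sum {A : Type*} [AddCommGroup A] (f : (Matrix (Fin 2) (Fin 0) ℤ × (Fin 2 → G)) → A)
    (a : Fin 2 → G) : ((qd a).sum fun p m => m • f p) = f (0, a) - f (0, Function.update a 1 0) -
      f (0, Function.update a 0 0) + f (0, 0) := by
  have h0 : ∀ p, (0 : ℤ) • f p = 0 := fun p => zero_zsmul _
  have h1 : ∀ p (m n : ℤ), (m + n) • f p = m • f p + n • f p := fun p m n => add_zsmul _ _ _
  have h2 : ∀ p (m n : ℤ), (m - n) • f p = m • f p - n • f p := fun p m n => by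
    rw [sub_zsmul, sub_eq_add_neg]
  unfold qd
  rw [Finsupp.sum_add_index' h0 h1, Finsupp.sum_sub_index h2, Finsupp.sum_sub_index h2,
    Finsupp.sum_single_index (h0 _), Finsupp.sum_single_index (h0 _),
    Finsupp.sum_single_index (h0 _), Finsupp.sum_single_index (h0 _)]
  simp only [one_zsmul]

theorem qd_hom0 (a : Fin 2 → G) : Hom0 (qd a) := by
  intro M
  have h1 := qd_sum (G := G) (A := ℤ) (fun p => (M.transpose * p.1).det ^ 2) a
  simp only [smul_eq_mul] at h1
  rw [h1]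
  simp

theorem qd_AJ (a : Fin 2 → G) (M z) : AJ (qd a) M z = 0 := by
  have h1 := qd_sum (fun p : Matrix (Fin 2) (Fin 0) ℤ × (Fin 2 → G) =>
    (M.transpose * p.1).det • bdG M z p.1 p.2) a
  have h2 : AJ (qd a) M z = (qd a).sum fun p m => m • (M.transpose * p.1).det • bdG M z p.1 p.2 := by
    unfold AJ
    refine Finsupp.sum_congr fun p _ => ?_
    rw [mul_smul]
  rw [h2, h1]
  simp only [Matrix.det_isEmpty, one_smul]
  unfold bdG
  rw [Fin.sum_univ_two, Fin.sum_univ_two, Fin.sum_univ_two, Fin.sum_univ_two]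
  simp

theorem qd_on {H : AddSubgroup G} {a : Fin 2 → G} (ha : ∀ i, a i ∈ H) : On H (qd a) := by
  have h1 : ∀ b : Fin 2 → G, (∀ i, b i ∈ H) →
      (Finsupp.single (0, b) 1 : Fc 2 0 G) ∈ OnS 2 0 H := by
    intro b hb p hp
    have h2 := Finset.mem_singleton.1 (Finsupp.support_single_subset hp)
    rw [h2]
    exact hb
  have h2 : ∀ j, ∀ i, Function.update a j 0 i ∈ H := by
    intro j i
    by_cases hij : i = j
    · subst hij
      rw [Function.update_self]
      exact H.zero_mem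
    · rw [Function.update_of_ne hij]
      exact ha i
  exact (OnS 2 0 H).add_mem ((OnS 2 0 H).sub_mem ((OnS 2 0 H).sub_mem (h1 _ ha) (h1 _ (h2 1)))
    (h1 _ (h2 0))) (h1 _ fun _ => H.zero_mem)

end comb

variable {K : Type} [Field K] [Algebra K Qb] {E : WeierstrassCurve K}

theorem surj_of_gen {F : Type} [Field F] [Algebra Qb F] {ξ : Fin 0 → ((E⁄Qb)⁄F).toAffine.Point}
    (hξ : IsGen 0 (Algebra.ofId Qb F) (fun _ : Fin 0 => E⁄Qb) ξ) :
    Function.Surjective (algebraMap Qb F) := by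
  intro x
  have h1 := hξ.gen
  have h2 : x ∈ IntermediateField.adjoin Qb (Set.range (Algebra.ofId Qb F) ∪
      {c | ∃ a i j, c = hc (ξ a) i / hc (ξ a) j}) := by
    rw [h1]
    exact IntermediateField.mem_top
  have h3 : IntermediateField.adjoin Qb (Set.range (Algebra.ofId Qb F) ∪
      {c | ∃ a i j, c = hc (ξ a) i / hc (ξ a) j}) ≤ ⊥ := by
    rw [IntermediateField.adjoin_le_iff]
    rintro y (⟨c, rfl⟩ | ⟨a, -⟩)
    · exact IntermediateField.mem_bot.2 ⟨c, rfl⟩
    · exact a.elim0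
  obtain ⟨c, hc⟩ := IntermediateField.mem_bot.1 (h3 h2)
  exact ⟨c, hc⟩

theorem c1_zero {F : Type} [Field F] [Algebra Qb F] {ξ : Fin 0 → ((E⁄Qb)⁄F).toAffine.Point}
    (hξ : IsGen 0 (Algebra.ofId Qb F) (fun _ : Fin 0 => E⁄Qb) ξ)
    (N : Matrix (Fin 2) (Fin 0) ℤ) (g : Fin 2 → E.toAffine.Point) :
    c1 ξ N g = ptC (W := fun _ => E⁄Qb) fun i => constPt Qb (g i) := by
  rw [ptC_eq]
  let u : Pnt (fun _ : Fin 2 => E⁄Qb) (LibAC6.pt0 Qb) F := ptE E ξ N g
  have h1 : cyc u = Finsupp.single (eqs (LibAC6.ptc fun i => constPt Qb (g i))) 1 :=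
    LibAC6.cyc_of_surj (surj_of_gen hξ) u (fun i => constPt Qb (g i)) (by
      intro i
      show _ = constPt F (constPt Qb (g i)) + ∑ a : Fin 0, N i a • ξ a
      rw [Finset.univ_eq_empty, Finset.sum_empty, add_zero])
  have h2 : cyc (LibAC6.ptc fun i => (constPt Qb (g i) : (E⁄Qb).toAffine.Point)) =
      Finsupp.single (eqs (LibAC6.ptc fun i => constPt Qb (g i))) 1 :=
    LibAC6.cyc_of_surj (F := Qb) Function.surjective_id _ _ fun i => rfl
  exact congrArg QuotientAddGroup.mk (h1.trans h2.symm)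

theorem self_of_nonDeg {K : Type} [Field K] [Algebra K Qb] {E : WeierstrassCurve K}
    {F : ℕ → Type} [∀ D, Field (F D)] [∀ D, Algebra Qb (F D)]
    {ξ : ∀ D, Fin D → ((E⁄Qb)⁄(F D)).toAffine.Point} {h : E.toAffine.Point → ℝ}
    {G : AddSubgroup E.toAffine.Point}
    (hξ : ∀ D, IsGen 0 (Algebra.ofId Qb (F D)) (fun _ : Fin D => E⁄Qb) (ξ D))
    (hh : ∀ P Q, h (P + Q) + h (P - Q) = 2 * h P + 2 * h Q)
    (hn : NonDeg E ξ h G) : Self E G := by
  intro a ha
  have h1 := hn 2 0 1 rfl (qd a) (qd_hom0 a) (qd_on ha) fun c' hc' _ =>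
    pair_eq_zero rfl hh (qd_hom0 a) hc' fun M z => by
      rw [qd_AJ]
      exact IsOfFinAddOrder.zero
  have h2 : clE E (ξ 0) (qd a) = sq (W := fun _ => E⁄Qb) fun i => constPt Qb (a i) := by
    rw [clE_sum]
    rw [qd_sum (fun p => c1 (ξ 0) p.1 p.2) a]
    unfold LibAF11.sq
    rw [c1_zero (hξ 0), c1_zero (hξ 0), c1_zero (hξ 0), c1_zero (hξ 0)]
    have e0 : (constPt Qb (0 : E.toAffine.Point) : (E⁄Qb).toAffine.Point) = 0 := rfl
    have e1 : ∀ j : Fin 2, (fun i => (constPt Qb (Function.update a j 0 i) :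
        (E⁄Qb).toAffine.Point)) = Function.update (fun i => constPt Qb (a i)) j 0 := by
      intro j
      funext i
      by_cases hij : i = j
      · subst hij
        rw [Function.update_self, Function.update_self, e0]
      · rw [Function.update_of_ne hij, Function.update_of_ne hij]
    rw [e1 1, e1 0]
    rfl
  rw [← h2]
  exact h1

end Pool.Agent.LibRG11
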