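import Pool.Agent.LibRG11.Defs

/-!
The height pairing of cycles on a power of an elliptic curve: the statements.
-/

open WeierstrassCurve Pool.Agent.LibBH2 Pool.Agent.LibIG50 Pool.Agent.LibCHd Pool.Agent.LibGG
  Pool.Agent.LibAC34 Pool.Agent.LibAF11
open scoped Classical

namespace Pool.Agent.LibRG11

/-- the multiplicity -/
def mu (r D : ℕ) : ℕ := r.choose D * r.choose (D + 1) - r.choose (r + 1 - D) * r.choose (D + 2)

section comb
variable {G : Type} [AddCommGroup G]

/-- the points `R i` are a basis of a subgroup of `H` with torsion quotient -/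
def Base (H : AddSubgroup G) {ρ : ℕ} (R : Fin ρ → G) : Prop :=
  (∀ i, R i ∈ H) ∧ LinearIndependent ℤ R ∧
    ∀ P ∈ H, ∃ k : ℤ, k ≠ 0 ∧ k • P ∈ AddSubgroup.closure (Set.range R)

/-- the regulator of the points `R i` -/
noncomputable def Reg (h : G → ℝ) {ρ : ℕ} (R : Fin ρ → G) : ℝ :=
  (Matrix.of fun i j => (h (R i + R j) - h (R i) - h (R j)) / 2).det

/-- the determinant of the height pairing for two families of combinations -/
noncomputable def Dt {r D D' n : ℕ} (hr : r = D + 1 + D') (h : G → ℝ) (c : Fin n → Fc r D G)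
    (c' : Fin n → Fc r D' G) : ℝ :=
  (Matrix.of fun i j => pair hr h (c i) (c' j)).det

/-- the rank of the subgroup `H` -/
noncomputable def rkS (H : AddSubgroup G) : Cardinal := Module.rank ℤ H

/-- the members of the family are homologically trivial, with translations in `H` -/
def Fam (H : AddSubgroup G) {r D n : ℕ} (c : Fin n → Fc r D G) : Prop :=
  ∀ j, Hom0 (c j) ∧ On H (c j)

end comb

variable {K : Type} [Field K] [Algebra K Qb] (E : WeierstrassCurve K)

section cls
variable {F : Type} [Field F] [Algebra Qb F] {r D : ℕ}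
  (ξ : Fin D → ((E⁄Qb)⁄F).toAffine.Point) (G : AddSubgroup E.toAffine.Point)

/-- the group of the classes in `CH_D (E ^ r)` of the homologically trivial combinations with
translations in `G`, if `ξ` is the generic point of `E ^ D` -/
noncomputable def V (r : ℕ) : AddSubgroup (CH (fun _ : Fin r => E⁄Qb) (pt0 Qb) D) :=
  AddSubgroup.closure {x | ∃ c, Hom0 c ∧ On G c ∧ clE E ξ c = x}

/-- the classes are linearly independent -/
def Ind {n : ℕ} (c : Fin n → Fc r D E.toAffine.Point) : Prop :=
  LinearIndependent ℤ fun j => clE E ξ (c j)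

end cls

/-- for all `n` there are a number field `L` and points `R 1, ..., R n` on the curve `E₀` over `L` which
are a basis of a subgroup of finite index of a group `G` with the property `Self`; here `E` is the
curve `E₀` over `L` -/
def HighRank (E₀ : WeierstrassCurve K) : Prop :=
  ∀ n : ℕ, ∃ (L : Type) (_ : Field L) (_ : NumberField L) (_ : Algebra L Qb)
    (E : WeierstrassCurve L) (_ : E.IsElliptic) (G : AddSubgroup E.toAffine.Point)
    (R : Fin n → E.toAffine.Point), E⁄Qb = E₀⁄Qb ∧ Self E G ∧ Base G R

variable {F : ℕ → Type} [∀ D, Field (F D)] [∀ D, Algebra Qb (F D)]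
  (ξ : ∀ D, Fin D → ((E⁄Qb)⁄(F D)).toAffine.Point) (h : E.toAffine.Point → ℝ)
  (G : AddSubgroup E.toAffine.Point)

/-- the height pairing is non-degenerate modulo torsion -/
def NonDeg : Prop :=
  ∀ (r D D' : ℕ) (hr : r = D + 1 + D') (c : Fc r D E.toAffine.Point), Hom0 c → On G c →
    (∀ c' : Fc r D' E.toAffine.Point, Hom0 c' → On G c' → pair hr h c c' = 0) →
    IsOfFinAddOrder (clE E (ξ D) c)

/-- ranks and determinants: if `R` is a basis of a subgroup of `G` with torsion quotient then the
regulator of `R` is not zero, the group of classes has the rank `mu * ρ`, and the determinants of the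
height pairing are rational multiples of the power with the exponent `mu` of the regulator, non-zero
if and only if the classes are linearly independent -/
def Dets : Prop :=
  ∀ (ρ : ℕ) (R : Fin ρ → E.toAffine.Point), Base G R → Reg h R ≠ 0 ∧
    ∀ (r D D' : ℕ) (hr : r = D + 1 + D'), rkS (V E (ξ D) G r) = (mu r D * ρ : ℕ) ∧
      ∀ (c : Fin (mu r D * ρ) → Fc r D E.toAffine.Point)
        (c' : Fin (mu r D * ρ) → Fc r D' E.toAffine.Point), Fam G c → Fam G c' →
        ∃ q : ℚ, Dt hr h c c' = q * Reg h R ^ mu r D ∧
          (q ≠ 0 ↔ Ind E (ξ D) c ∧ Ind E (ξ D') c')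

end Pool.Agent.LibRG11
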