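import Pool.Agent.LibRG11.Ht
import Pool.Agent.LibRG11.Stmt

/-!
The regulator is not zero.
-/

open scoped Classical

namespace Pool.Agent.LibRG11

section
variable {A : Type} [AddCommGroup A] {h : A → ℝ} {ρ : ℕ}

theorem h_comb (hh : ∀ P Q : A, h (P + Q) + h (P - Q) = 2 * h P + 2 * h Q) (R : Fin ρ → A)
    (a : Fin ρ → ℤ) : h (∑ i, a i • R i) = ∑ i, ∑ j, (a i : ℝ) * a j * bl h (R i) (R j) := by
  rw [← bl_self hh, bl_sum hh]
  rw [Finset.sum_comm]
  refine Finset.sum_congr rfl fun j _ => ?_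
  rw [bl_zsmul hh, bl_comm, bl_sum hh, Finset.mul_sum]
  refine Finset.sum_congr rfl fun i _ => ?_
  rw [bl_zsmul hh, bl_comm h (R j) (R i)]
  ring

theorem reg_eq (h : A → ℝ) (R : Fin ρ → A) : Reg h R = (Matrix.of fun i j => bl h (R i) (R j)).det :=
  rfl

/-- a form with finiteness has non-zero discriminants -/
theorem reg_ne (hh : ∀ P Q : A, h (P + Q) + h (P - Q) = 2 * h P + 2 * h Q)
    (hfin : ∀ B : ℝ, {P | h P ≤ B}.Finite) {R : Fin ρ → A} (hR : LinearIndependent ℤ R) :
    Reg h R ≠ 0 := by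
  intro h0
  rw [reg_eq] at h0
  obtain ⟨v, hv, h1⟩ := Matrix.exists_mulVec_eq_zero_iff.2 h0
  have h1' : ∀ i, ∑ j, bl h (R i) (R j) * v j = 0 := fun i => congrFun h1 i
  have h1'' : ∀ j, ∑ i, bl h (R i) (R j) * v i = 0 := by
    intro j
    rw [← h1' j]
    refine Finset.sum_congr rfl fun i _ => ?_
    rw [bl_comm]
  obtain ⟨i₀, hi₀⟩ := Function.ne_iff.1 hv
  let a : ℕ → Fin ρ → ℤ := fun t i => round (t * v i)
  let C : ℝ := ∑ i, ∑ j, |bl h (R i) (R j)|
  have hb : ∀ t, h (∑ i, a t i • R i) ≤ C := by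
    intro t
    have e1 : ∑ i, ∑ j, (a t i : ℝ) * a t j * bl h (R i) (R j) =
        ∑ i, ∑ j, ((a t i : ℝ) - t * v i) * ((a t j : ℝ) - t * v j) * bl h (R i) (R j) := by
      have e2 : ∀ i j, ((a t i : ℝ) - t * v i) * ((a t j : ℝ) - t * v j) * bl h (R i) (R j) =
          (a t i : ℝ) * a t j * bl h (R i) (R j) - (a t i : ℝ) * t * (bl h (R i) (R j) * v j) -
            ((a t j : ℝ) - t * v j) * t * (bl h (R i) (R j) * v i) := by
        intro i j
        ring
      simp only [e2, Finset.sum_sub_distrib]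
      have e3 : ∑ i, ∑ j, (a t i : ℝ) * t * (bl h (R i) (R j) * v j) = 0 := by
        refine Finset.sum_eq_zero fun i _ => ?_
        rw [← Finset.mul_sum, h1' i, mul_zero]
      have e4 : ∑ i, ∑ j, ((a t j : ℝ) - t * v j) * t * (bl h (R i) (R j) * v i) = 0 := by
        rw [Finset.sum_comm]
        refine Finset.sum_eq_zero fun j _ => ?_
        rw [← Finset.mul_sum, h1'' j, mul_zero]
      rw [e3, e4]
      ring
    rw [h_comb hh, e1]
    refine Finset.sum_le_sum fun i _ => Finset.sum_le_sum fun j _ => ?_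
    have e5 : ∀ i, |(a t i : ℝ) - t * v i| ≤ 1 := by
      intro i
      have := abs_sub_round ((t : ℝ) * v i)
      rw [abs_sub_comm]
      exact this.trans (by norm_num)
    refine (le_abs_self _).trans ?_
    rw [abs_mul, abs_mul]
    calc |(a t i : ℝ) - t * v i| * |(a t j : ℝ) - t * v j| * |bl h (R i) (R j)| ≤
        1 * 1 * |bl h (R i) (R j)| := by
          gcongr
          · exact e5 i
          · exact e5 j
      _ = _ := by ring
  have hinf : (Set.range a).Infinite := by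
    intro hf
    have hf2 : (Set.range fun t => a t i₀).Finite := by
      have : (fun t => a t i₀) = (fun x : Fin ρ → ℤ => x i₀) ∘ a := rfl
      rw [this, Set.range_comp]
      exact hf.image _
    obtain ⟨M, hM⟩ := (hf2.image fun z : ℤ => |(z : ℝ)|).bddAbove
    obtain ⟨t, ht⟩ := exists_nat_gt ((M + 1) / |v i₀|)
    have hpos : 0 < |v i₀| := abs_pos.2 hi₀
    rw [div_lt_iff₀ hpos] at ht
    have h3 : |((a t i₀ : ℤ) : ℝ)| ≤ M := hM ⟨a t i₀, ⟨t, rfl⟩, rfl⟩
    have h4 : |(t : ℝ) * v i₀ - a t i₀| ≤ 1 / 2 := abs_sub_round _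
    have h5 : |(t : ℝ) * v i₀| = t * |v i₀| := by
      rw [abs_mul, Nat.abs_cast]
    have h6 := abs_sub_abs_le_abs_sub ((t : ℝ) * v i₀) (a t i₀)
    linarith
  have hinj : Function.Injective fun x : Fin ρ → ℤ => ∑ i, x i • R i := by
    intro x y hxy
    have h2 : ∑ i, (x i - y i) • R i = 0 := by
      simp only [sub_smul, Finset.sum_sub_distrib]
      exact sub_eq_zero.2 hxy
    funext i
    exact sub_eq_zero.1 (Fintype.linearIndependent_iff.1 hR (fun i => x i - y i) h2 i)
  have h7 := hinf.image (hinj.injOn (s := Set.range a))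
  refine h7 ((hfin C).subset ?_)
  rintro _ ⟨_, ⟨t, rfl⟩, rfl⟩
  exact hb t

end

section can
variable {K : Type} [Field K] [NumberField K] {E : WeierstrassCurve K}

theorem IsCan.finite {h : E.toAffine.Point → ℝ} (hc : IsCan E h) (B : ℝ) :
    {P | h P ≤ B}.Finite := by
  obtain ⟨-, C, hC⟩ := hc
  refine (nht_finite (E := E) (B + C)).subset fun P hP => ?_
  have h1 := (abs_le.1 (hC P)).1
  have h2 : h P ≤ B := hP
  show nht P ≤ B + C
  linarith

end can

end Pool.Agent.LibRG11
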