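import Pool.Agent.LibRG11.S4

/-!
Combinations which are orthogonal to all combinations.
-/

open Pool.Agent.LibHR84
open scoped Classical

namespace Pool.Agent.LibRG11

variable {G : Type} [AddCommGroup G] {r D D' : ℕ}

theorem tk_mem (H : AddSubgroup G) (κ : PP r D → ℤ) {c : Fc r D G} (hc : On H c) : tk κ c ∈ H := by
  rw [tk_eq]
  refine AddSubgroup.sum_mem _ fun p hp => AddSubgroup.zsmul_mem _ ?_ _
  exact AddSubgroup.sum_mem _ fun i _ => AddSubgroup.zsmul_mem _ (hc p hp i) _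

theorem on_spc (H : AddSubgroup G) (p : PP r D) {R : G} (hR : R ∈ H) : On H (spc p R) := by
  intro q hq i
  have h1 : q = (p.1, fun i => p.2 i • R) ∨ q = (p.1, 0) := by
    have h2 := Finsupp.support_sub hq
    rcases Finset.mem_union.1 h2 with h3 | h3
    · exact Or.inl (Finset.mem_singleton.1 (Finsupp.support_single_subset h3))
    · exact Or.inr (Finset.mem_singleton.1 (Finsupp.support_single_subset h3))
  rcases h1 with rfl | rfl
  · exact AddSubgroup.zsmul_mem _ hR _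
  · exact AddSubgroup.zero_mem _

/-- S5: (A3) -/
theorem aj_of_pair (hr : r = D + 1 + D') {h : G → ℝ}
    (hh : ∀ P Q : G, h (P + Q) + h (P - Q) = 2 * h P + 2 * h Q)
    (h0 : ∀ P, h P = 0 → IsOfFinAddOrder P) (H : AddSubgroup G) {c : Fc r D G} (hc : Hom0 c)
    (hH : On H c) (hp : ∀ c' : Fc r D' G, Hom0 c' → On H c' → pair hr h c c' = 0) (M z) :
    IsOfFinAddOrder (AJ c M z) := by
  revert M z
  rw [AJ_iff]
  obtain ⟨xs, ys, hdet, hdec, hys⟩ := exists_frame (eR hr)
  rw [aj_left (eR hr) hys c]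
  intro b₀
  set R := tk (fun p => kB (eR hr) p (ys b₀)) c with hR
  have hRH : R ∈ H := tk_mem H _ hH
  apply h0
  have h1 := hp _ (spc_hom (ys b₀) R) (on_spc H _ hRH)
  rw [pair_eq, pr_tests hh (eR hr) hdec hc (spc_hom (ys b₀) R)] at h1
  have h2 : ∀ b, ∑ a, (((bt (eR hr) xs ys)⁻¹ b a : ℚ) : ℝ) *
      bh h hh (tk (fun p => kB (eR hr) p (ys b)) c)
        (tk (fun p' => kB (eR hr) (xs a) p') (spc (ys b₀) R)) =
      (((1 : Matrix (Fin (LibCV66.mul r D)) (Fin (LibCV66.mul r D)) ℚ) b b₀ : ℚ) : ℝ) *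
        bh h hh (tk (fun p => kB (eR hr) p (ys b)) c) R := by
    intro b
    rw [← Matrix.nonsing_inv_mul _ (isUnit_iff_ne_zero.2 hdet), Matrix.mul_apply]
    push_cast
    rw [Finset.sum_mul]
    refine Finset.sum_congr rfl fun a _ => ?_
    rw [tk_spc, map_zsmul, zsmul_eq_mul]
    show _ = ((bt (eR hr) xs ys)⁻¹ b a : ℝ) * ((kB (eR hr) (xs a) (ys b₀) : ℚ) : ℝ) * _
    push_cast
    ring
  rw [Finset.sum_congr rfl fun b _ => h2 b, Finset.sum_eq_single b₀] at h1
  · rw [Matrix.one_apply_eq, Rat.cast_one, one_mul, ← hR, bh_self] at h1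
    exact h1
  · intro b _ hb
    rw [Matrix.one_apply_ne hb, Rat.cast_zero, zero_mul]
  · intro hb
    exact absurd (Finset.mem_univ b₀) hb

end Pool.Agent.LibRG11
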