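import Pool.Agent.LibRG11.S5

/-!
The determinant of the pairing.
-/

open Pool.Agent.LibHR84
open scoped Classical Kronecker

namespace Pool.Agent.LibRG11

variable {G : Type} [AddCommGroup G] {r D D' : ℕ}

section coord
variable {h : G → ℝ} (hq : ∀ R S : G, h (R + S) + h (R - S) = 2 * h R + 2 * h S) {ρ : ℕ}
  {R : Fin ρ → G}

theorem mult_of_mem {x : G} (h : x ∈ AddSubgroup.closure (Set.range R)) :
    ∃ a : Fin ρ → ℤ, x = ∑ i, a i • R i := by
  induction h using AddSubgroup.closure_induction with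
  | mem y hy =>
    obtain ⟨i, rfl⟩ := hy
    exact ⟨Pi.single i 1, by simp [Pi.single_apply, ite_smul]⟩
  | zero => exact ⟨0, by simp⟩
  | add y z _ _ hy hz =>
    obtain ⟨a, ha⟩ := hy
    obtain ⟨b, hb⟩ := hz
    exact ⟨a + b, by simp only [Pi.add_apply, add_smul, Finset.sum_add_distrib, ha, hb]⟩
  | neg y _ hy =>
    obtain ⟨a, ha⟩ := hy
    exact ⟨-a, by simp only [Pi.neg_apply, neg_smul, Finset.sum_neg_distrib, ha]⟩

/-- coordinates on a subgroup -/
theorem exists_corH (H : AddSubgroup G) (hli : LinearIndependent ℤ R)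
    (hR2 : ∀ P ∈ H, ∃ k : ℤ, k ≠ 0 ∧ k • P ∈ AddSubgroup.closure (Set.range R)) :
    ∃ cor : G →+ (Fin ρ → ℚ), (∀ x ∈ H, cor x = 0 ↔ IsOfFinAddOrder x) ∧
      (∀ i, cor (R i) = Pi.single i 1) ∧
      ∀ x ∈ H, ∀ y ∈ H, bh h hq x y = ∑ i, ∑ j, ((cor x i : ℚ) : ℝ) * ((cor y j : ℚ) : ℝ) *
        bh h hq (R i) (R j) := by
  let T : (Fin ρ → ℤ) →+ G := AddMonoidHom.mk' (fun a => ∑ i, a i • R i) fun a b => by
    simp only [Pi.add_apply, add_smul, Finset.sum_add_distrib]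
  have hT : Function.Injective T := by
    rw [injective_iff_map_eq_zero]
    intro a ha
    exact funext fun i => Fintype.linearIndependent_iff.1 hli a ha i
  have h1 : ∀ i, ∃ f : G →+ ℚ, ∀ a, f (T a) = (a i : ℚ) := by
    intro i
    obtain ⟨f, hf⟩ := (Module.Baer.of_divisible ℚ).extension_property_addMonoidHom T hT
      (AddMonoidHom.mk' (fun a : Fin ρ → ℤ => (a i : ℚ)) fun a b => by
        rw [Pi.add_apply, Int.cast_add])
    exact ⟨f, fun a => DFunLike.congr_fun hf a⟩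
  choose f hf using h1
  let cor : G →+ (Fin ρ → ℚ) := AddMonoidHom.mk' (fun x i => f i x) fun x y => by
    funext i
    exact map_add _ _ _
  have hcor : ∀ x i, cor x i = f i x := fun _ _ => rfl
  have key : ∀ x ∈ H, ∃ (n : ℤ) (a : Fin ρ → ℤ), n ≠ 0 ∧ n • x = ∑ i, a i • R i ∧
      ∀ i, (n : ℚ) * cor x i = a i := by
    intro x hx
    obtain ⟨n, hn, h2'⟩ := hR2 x hx
    obtain ⟨a, h2⟩ := mult_of_mem h2'
    refine ⟨n, a, hn, h2, fun i => ?_⟩
    have h3 := hf i a
    have h4 : T a = n • x := h2.symm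
    rw [h4, map_zsmul, zsmul_eq_mul] at h3
    exact h3
  refine ⟨cor, fun x hx => ⟨fun hx0 => ?_, fun hx0 => ?_⟩, fun i => ?_, fun x hx y hy => ?_⟩
  · obtain ⟨n, a, hn, h2, h3⟩ := key x hx
    rw [isOfFinAddOrder_iff_zsmul_eq_zero]
    refine ⟨n, hn, ?_⟩
    rw [h2]
    refine Finset.sum_eq_zero fun i _ => ?_
    have h4 := h3 i
    rw [hx0, Pi.zero_apply, mul_zero] at h4
    have h5 : a i = 0 := by exact_mod_cast h4.symm
    rw [h5, zero_smul]
  · funext i
    obtain ⟨n, hn, h2⟩ := isOfFinAddOrder_iff_nsmul_eq_zero.1 hx0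
    have h3 : (n : ℚ) * f i x = 0 := by
      rw [← nsmul_eq_mul, ← map_nsmul, h2, map_zero]
    rcases mul_eq_zero.1 h3 with h4 | h4
    · exact absurd (by exact_mod_cast h4) hn.ne'
    · exact h4
  · funext j
    have h2 := hf j (Pi.single i 1)
    have h3 : T (Pi.single i 1) = R i := by
      show ∑ k, (Pi.single i 1 : Fin ρ → ℤ) k • R k = R i
      simp [Pi.single_apply, ite_smul]
    rw [h3] at h2
    rw [hcor, h2]
    by_cases h4 : j = i
    · subst h4
      simp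
    · simp [Pi.single_eq_of_ne h4]
  · obtain ⟨n, a, hn, h2, h3⟩ := key x hx
    obtain ⟨m, b, hm, h4, h5⟩ := key y hy
    have h6 : (n * m : ℝ) * bh h hq x y = ∑ i, ∑ j, (a i * b j : ℝ) * bh h hq (R i) (R j) := by
      rw [← bh_sum h hq, ← h2, ← h4, map_zsmul, map_zsmul, AddMonoidHom.zsmul_apply,
        zsmul_eq_mul, zsmul_eq_mul]
      ring
    have hn' : (n : ℝ) ≠ 0 := by exact_mod_cast hn
    have hm' : (m : ℝ) ≠ 0 := by exact_mod_cast hm
    have h7 : (n * m : ℝ) * bh h hq x y = (n * m : ℝ) * ∑ i, ∑ j, ((cor x i : ℚ) : ℝ) *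
        ((cor y j : ℚ) : ℝ) * bh h hq (R i) (R j) := by
      rw [h6, Finset.mul_sum]
      refine Finset.sum_congr rfl fun i _ => ?_
      rw [Finset.mul_sum]
      refine Finset.sum_congr rfl fun j _ => ?_
      have h8 : (n : ℝ) * ((cor x i : ℚ) : ℝ) = a i := by exact_mod_cast h3 i
      have h9 : (m : ℝ) * ((cor y j : ℚ) : ℝ) = b j := by exact_mod_cast h5 j
      rw [← h8, ← h9]
      ring
    exact mul_left_cancel₀ (mul_ne_zero hn' hm') h7

end coord

/-! ### the determinant -/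

section det
variable {h : G → ℝ} (hq : ∀ R S : G, h (R + S) + h (R - S) = 2 * h R + 2 * h S) {ρ : ℕ}

theorem on_sum (H : AddSubgroup G) {n : ℕ} {c : Fin n → Fc r D G} (hc : ∀ j, On H (c j))
    (v : Fin n → ℤ) : On H (∑ s, v s • c s) := by
  intro p hp i
  obtain ⟨s, hs⟩ : ∃ s, p ∈ (c s).support := by
    by_contra h1
    push Not at h1
    apply Finsupp.mem_support_iff.1 hp
    rw [Finsupp.finsetSum_apply]
    refine Finset.sum_eq_zero fun s _ => ?_
    rw [Finsupp.smul_apply, Finsupp.notMem_support_iff.1 (h1 s), smul_zero]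
  exact hc s p hs i

theorem indepH (H : AddSubgroup G) {cor : G →+ (Fin ρ → ℚ)}
    (hcor : ∀ x ∈ H, cor x = 0 ↔ IsOfFinAddOrder x) {μ n : ℕ}
    {κs : Fin μ → PP r D → ℤ}
    (haj : ∀ c : Cm r D G, LibHR84.AJ c ↔ ∀ b, IsOfFinAddOrder (tk (κs b) c))
    (ε : Fin n ≃ Fin μ × Fin ρ) (c : Fin n → Cm r D G) (hcH : ∀ j, On H (c j)) :
    ((xm cor κs c).submatrix id ε).det ≠ 0 ↔
      ∀ v : Fin n → ℤ, LibHR84.AJ (∑ s, v s • c s) → v = 0 := by
  have h1 : ∀ v : Fin n → ℤ, LibHR84.AJ (∑ s, v s • c s) ↔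
      ∀ t, ∑ s, (v s : ℚ) * xm cor κs c s t = 0 := by
    intro v
    rw [haj]
    constructor
    · intro h2 t
      have h3 := congrFun ((hcor _ (tk_mem H _ (on_sum H hcH v))).2 (h2 t.1)) t.2
      rw [map_sum, map_sum, Finset.sum_apply] at h3
      refine Eq.trans ?_ h3
      refine Finset.sum_congr rfl fun s _ => ?_
      rw [map_zsmul, map_zsmul, Pi.smul_apply, zsmul_eq_mul]
      rfl
    · intro h2 b
      rw [← hcor _ (tk_mem H _ (on_sum H hcH v))]
      funext i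
      rw [map_sum, map_sum, Finset.sum_apply, Pi.zero_apply, ← h2 (b, i)]
      refine Finset.sum_congr rfl fun s _ => ?_
      rw [map_zsmul, map_zsmul, Pi.smul_apply, zsmul_eq_mul]
      rfl
  constructor
  · intro hd v hv
    by_contra hne
    apply hd
    refine Matrix.exists_vecMul_eq_zero_iff.1 ⟨fun s => (v s : ℚ), ?_, ?_⟩
    · intro h2
      apply hne
      funext s
      have h3 : (v s : ℚ) = 0 := congrFun h2 s
      have h4 : v s = 0 := by exact_mod_cast h3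
      exact h4
    · funext j
      exact (h1 v).1 hv (ε j)
  · intro hv hd
    obtain ⟨v, hne, h2⟩ := Matrix.exists_vecMul_eq_zero_iff.2 hd
    obtain ⟨n₀, a, hn, ha⟩ := clear v
    have h3 : a = 0 := by
      apply hv
      rw [h1]
      intro t
      have h4 := congrFun h2 (ε.symm t)
      simp only [Matrix.vecMul, dotProduct, Matrix.submatrix_apply, id_eq,
        Equiv.apply_symm_apply, Pi.zero_apply] at h4
      have h5 : ∑ s, (a s : ℚ) * xm cor κs c s t = n₀ * ∑ s, v s * xm cor κs c s t := by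
        rw [Finset.mul_sum]
        refine Finset.sum_congr rfl fun s _ => ?_
        rw [ha]
        ring
      rw [h5, h4, mul_zero]
    apply hne
    funext s
    have h6 := ha s
    rw [h3, Pi.zero_apply, Int.cast_zero] at h6
    rcases mul_eq_zero.1 h6.symm with h7 | h7
    · exact absurd (by exact_mod_cast h7) hn
    · exact h7

include hq in
theorem det_prH (H : AddSubgroup G) (e : Fin r ≃ (Fin D ⊕ Unit) ⊕ Fin D') {R : Fin ρ → G}
    (hR1 : LinearIndependent ℤ R)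
    (hR2 : ∀ P ∈ H, ∃ k : ℤ, k ≠ 0 ∧ k • P ∈ AddSubgroup.closure (Set.range R))
    (c : Fin (LibCV66.mul r D * ρ) → Cm r D G) (hc : ∀ s, LibHR84.Hom0 (c s))
    (hcH : ∀ s, On H (c s))
    (c' : Fin (LibCV66.mul r D * ρ) → Cm r D' G) (hc' : ∀ t, LibHR84.Hom0 (c' t))
    (hcH' : ∀ s, On H (c' s)) :
    ∃ q : ℚ, (Matrix.of fun s t => pr h e (c s) (c' t)).det = q * reg h R ^ LibCV66.mul r D ∧
      (q ≠ 0 ↔ (∀ v : Fin (LibCV66.mul r D * ρ) → ℤ, LibHR84.AJ (∑ s, v s • c s) → v = 0) ∧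
        ∀ v : Fin (LibCV66.mul r D * ρ) → ℤ, LibHR84.AJ (∑ t, v t • c' t) → v = 0) := by
  obtain ⟨cor, hcor, -, hb⟩ := exists_corH hq H hR1 hR2
  obtain ⟨xs, ys, hdet, hdec, hys⟩ := exists_frame e
  let ε : Fin (LibCV66.mul r D * ρ) ≃ Fin (LibCV66.mul r D) × Fin ρ := finProdFinEquiv.symm
  let X := xm cor (fun b p => kB e p (ys b)) c
  let X' := xm cor (fun a p' => kB e (xs a) p') c'
  let Rg : Matrix (Fin ρ) (Fin ρ) ℝ := Matrix.of fun i j => (h (R i + R j) - h (R i) - h (R j)) / 2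
  let bi : Matrix (Fin (LibCV66.mul r D)) (Fin (LibCV66.mul r D)) ℚ := (bt e xs ys)⁻¹
  let φ : ℚ →+* ℝ := Rat.castHom ℝ
  have hgram : (Matrix.of fun s t => pr h e (c s) (c' t)) =
      (X.map φ) * ((bi.map φ) ⊗ₖ Rg) * (X'.map φ).transpose := by
    ext s t
    rw [Matrix.of_apply, pr_tests hq e hdec (hc s) (hc' t), Matrix.mul_apply]
    simp only [Matrix.mul_apply, Finset.sum_mul, Matrix.transpose_apply, Matrix.map_apply,
      Fintype.sum_prod_type, Matrix.kroneckerMap_apply]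
    have h1 : ∀ b a, (((bt e xs ys)⁻¹ b a : ℚ) : ℝ) *
        bh h hq (tk (fun p => kB e p (ys b)) (c s)) (tk (fun p' => kB e (xs a) p') (c' t)) =
        ∑ j, ∑ i, φ (X s (b, i)) * (φ (bi b a) * Rg i j) * φ (X' t (a, j)) := by
      intro b a
      rw [hb _ (tk_mem H _ (hcH s)) _ (tk_mem H _ (hcH' t)), Finset.sum_comm, Finset.mul_sum]
      refine Finset.sum_congr rfl fun j _ => ?_
      rw [Finset.mul_sum]
      refine Finset.sum_congr rfl fun i _ => ?_
      have h2 : Rg i j = bh h hq (R i) (R j) := rfl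
      rw [h2]
      have h3 : φ (X s (b, i)) = ((cor (tk (fun p => kB e p (ys b)) (c s)) i : ℚ) : ℝ) := rfl
      have h4 : φ (X' t (a, j)) = ((cor (tk (fun p' => kB e (xs a) p') (c' t)) j : ℚ) : ℝ) := rfl
      have h5 : φ (bi b a) = (((bt e xs ys)⁻¹ b a : ℚ) : ℝ) := rfl
      rw [h3, h4, h5]
      ring
    rw [Finset.sum_congr rfl fun b _ => Finset.sum_congr rfl fun a _ => h1 b a, Finset.sum_comm]
    refine Finset.sum_congr rfl fun a _ => ?_
    rw [Finset.sum_comm]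
  refine ⟨(X.submatrix id ε).det * bi.det ^ ρ * (X'.submatrix id ε).det, ?_, ?_⟩
  · have h1 : (X.map φ) * ((bi.map φ) ⊗ₖ Rg) * (X'.map φ).transpose =
        ((X.submatrix id ε).map φ) * (((bi.map φ) ⊗ₖ Rg).submatrix ε ε) *
          ((X'.submatrix id ε).map φ).transpose := by
      have h2 : (X.submatrix id ε).map φ = (X.map φ).submatrix id ε := rfl
      have h3 : ((X'.submatrix id ε).map φ).transpose = (X'.map φ).transpose.submatrix ε id := rfl
      rw [h2, h3, Matrix.submatrix_mul_equiv, Matrix.submatrix_mul_equiv,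
        Matrix.submatrix_id_id]
    rw [hgram, h1, Matrix.det_mul, Matrix.det_mul, Matrix.det_transpose,
      Matrix.det_submatrix_equiv_self, Matrix.det_kronecker, Fintype.card_fin, Fintype.card_fin]
    have h4 : ∀ {m : ℕ} (A : Matrix (Fin m) (Fin m) ℚ), (A.map φ).det = ((A.det : ℚ) : ℝ) := by
      intro m A
      exact (RingHom.map_det φ A).symm
    rw [h4, h4, h4]
    push_cast
    show _ = _ * Rg.det ^ LibCV66.mul r D
    ring
  · have h5 : bi.det ≠ 0 := by
      show ((bt e xs ys)⁻¹).det ≠ 0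
      exact ((Matrix.isUnit_nonsing_inv_det_iff).2 (isUnit_iff_ne_zero.2 hdet)).ne_zero
    rw [← indepH H hcor (aj_left e hys) ε c hcH, ← indepH H hcor (aj_right e hdec) ε c' hcH']
    constructor
    · intro h6
      exact ⟨left_ne_zero_of_mul (left_ne_zero_of_mul h6), right_ne_zero_of_mul h6⟩
    · rintro ⟨h6, h7⟩
      exact mul_ne_zero (mul_ne_zero h6 (pow_ne_zero _ h5)) h7

end det

/-- S6: (A4); `R` is a basis of `H` modulo torsion up to finite index -/
theorem det_pair (hr : r = D + 1 + D') {h : G → ℝ}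
    (hh : ∀ P Q : G, h (P + Q) + h (P - Q) = 2 * h P + 2 * h Q)
    (h0 : ∀ P, h P = 0 → IsOfFinAddOrder P) (H : AddSubgroup G) {ρ n : ℕ} (R : Fin ρ → G)
    (hR : ∀ i, R i ∈ H) (hR1 : LinearIndependent ℤ R)
    (hR2 : ∀ P ∈ H, ∃ k : ℤ, k ≠ 0 ∧ k • P ∈ AddSubgroup.closure (Set.range R))
    (hn : n = (r.choose D * r.choose (D + 1) - r.choose (r + 1 - D) * r.choose (D + 2)) * ρ)
    (c : Fin n → Fc r D G) (c' : Fin n → Fc r D' G) (hc : ∀ j, Hom0 (c j)) (hcH : ∀ j, On H (c j))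
    (hc' : ∀ j, Hom0 (c' j)) (hcH' : ∀ j, On H (c' j)) :
    ∃ q : ℚ, (Matrix.of fun i j => pair hr h (c i) (c' j)).det =
        q * (Matrix.of fun i j => (h (R i + R j) - h (R i) - h (R j)) / 2).det ^
          (r.choose D * r.choose (D + 1) - r.choose (r + 1 - D) * r.choose (D + 2)) ∧
      (q ≠ 0 ↔ (∀ a : Fin n → ℤ, (∀ M z, IsOfFinAddOrder (AJ (∑ j, a j • c j) M z)) → a = 0) ∧
        ∀ a : Fin n → ℤ, (∀ M z, IsOfFinAddOrder (AJ (∑ j, a j • c' j) M z)) → a = 0) := by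
  rw [← LibMul34.mul_eq] at hn ⊢
  have hn' : n = LibCV66.mul r D * ρ := hn
  subst hn'
  obtain ⟨q, h1, h2⟩ := det_prH hh H (eR hr) hR1 hR2 c hc hcH c' hc' hcH'
  refine ⟨q, ?_, ?_⟩
  · have h3 : (Matrix.of fun i j => pair hr h (c i) (c' j)) =
        Matrix.of fun s t => pr h (eR hr) (c s) (c' t) := by
      ext i j
      exact pair_eq hr h (c i) (c' j)
    rw [h3, h1]
    rfl
  · rw [h2]
    refine and_congr (forall_congr' fun v => ?_) (forall_congr' fun v => ?_)
    · rw [AJ_iff]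
    · rw [AJ_iff]

end Pool.Agent.LibRG11
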