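import Pool.Agent.LibRG11.AJ
import Pool.Agent.LibCV66.R1
import Pool.Agent.LibMul34.Fin

/-!
The rank of the Abel-Jacobi images.
-/

open scoped Classical

namespace Pool.Agent.LibRG11

variable {G : Type} [AddCommGroup G] {r D : ℕ}

theorem kf_lin (N : Matrix (Fin r) (Fin D) ℤ) (w : Fin r → ℤ)
    (q : Matrix (Fin r) (Fin D) ℤ × (Fin r → ℤ)) :
    LibCV66.kf (N, w) q = ∑ i, w i * LibCV66.kf (N, Pi.single i 1) q := by
  rw [LibCV66.kf_symm (N, w) q]
  have h := (LibCV66.kf_mem q).2 N w
  simp only [] at h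
  have h1 : ((LibCV66.kf q (N, w) : ℤ) : ℚ) =
      ((∑ i, w i * LibCV66.kf (N, Pi.single i 1) q : ℤ) : ℚ) := by
    rw [h]
    push_cast
    exact Finset.sum_congr rfl fun i _ => by rw [LibCV66.kf_symm q (N, Pi.single i 1)]
  exact_mod_cast h1

/-- the test `q`, as a homomorphism on formal combinations -/
noncomputable def ajH (q : Matrix (Fin r) (Fin D) ℤ × (Fin r → ℤ)) : Fc r D G →+ G :=
  Finsupp.liftAddHom fun p =>
    zmultiplesHom _ (∑ i, LibCV66.kf (p.1, Pi.single i 1) q • p.2 i)

theorem ajH_apply (q : Matrix (Fin r) (Fin D) ℤ × (Fin r → ℤ)) (c : Fc r D G) :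
    ajH q c = c.sum fun p n => n • ∑ i, LibCV66.kf (p.1, Pi.single i 1) q • p.2 i := rfl

theorem ajH_single (q : Matrix (Fin r) (Fin D) ℤ × (Fin r → ℤ))
    (p : Matrix (Fin r) (Fin D) ℤ × (Fin r → G)) (n : ℤ) :
    ajH q (Finsupp.single p n) = n • ∑ i, LibCV66.kf (p.1, Pi.single i 1) q • p.2 i := by
  rw [ajH_apply]
  exact Finsupp.sum_single_index (zero_smul ℤ _)

theorem ajH_eq (c : Fc r D G) (M : Matrix (Fin r) (Fin D) ℤ) (z : Fin r → ℤ) :
    ajH (M, z) c = AJ c M z := by
  rw [ajH_apply]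
  refine Finset.sum_congr rfl fun p _ => ?_
  change c p • _ = (c p * _) • _
  have h : ∑ i, LibCV66.kf (p.1, Pi.single i 1) (M, z) • p.2 i =
      (M.transpose * p.1).det • bdG M z p.1 p.2 := by
    rw [bdG, Finset.smul_sum]
    refine Finset.sum_congr rfl fun i _ => ?_
    rw [smul_smul]
    rfl
  rw [mul_smul, ← h]

theorem ajH_relation {b : ℕ} {p : Fin b → Matrix (Fin r) (Fin D) ℤ × (Fin r → ℤ)}
    {x : Matrix (Fin r) (Fin D) ℤ × (Fin r → ℤ)} {n : ℤ} {a : Fin b → ℤ}
    (h : ∀ q, n * LibCV66.kf q x = ∑ i, a i * LibCV66.kf q (p i)) (c : Fc r D G) :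
    n • ajH x c = ∑ i, a i • ajH (p i) c := by
  induction c using Finsupp.induction_linear with
  | zero => simp
  | add c c' hc hc' =>
    simp only [map_add, smul_add, Finset.sum_add_distrib]
    rw [hc, hc']
  | single P m =>
    simp only [ajH_single, Finset.smul_sum, smul_smul]
    rw [Finset.sum_comm]
    refine Finset.sum_congr rfl fun i _ => ?_
    rw [← Finset.sum_smul]
    congr 1
    have h1 := h (P.1, Pi.single i 1)
    calc n * (m * LibCV66.kf (P.1, Pi.single i 1) x) =
        m * (n * LibCV66.kf (P.1, Pi.single i 1) x) := by ring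
      _ = _ := by
        rw [h1, Finset.mul_sum]
        exact Finset.sum_congr rfl fun j _ => by ring

theorem ajH_mem {H : AddSubgroup G} {c : Fc r D G} (hc : On H c)
    (q : Matrix (Fin r) (Fin D) ℤ × (Fin r → ℤ)) : ajH q c ∈ H := by
  rw [ajH_apply]
  exact sum_mem fun P hP => zsmul_mem (sum_mem fun i _ => zsmul_mem (hc P hP i) _) _

/-- S7: the rank -/
theorem rank_aj (H : AddSubgroup G) {ρ n : ℕ} (R : Fin ρ → G)
    (hR : ∀ i, R i ∈ H) (hR1 : LinearIndependent ℤ R)
    (hR2 : ∀ P ∈ H, ∃ k : ℤ, k ≠ 0 ∧ k • P ∈ AddSubgroup.closure (Set.range R))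
    (hn : n = (r.choose D * r.choose (D + 1) - r.choose (r + 1 - D) * r.choose (D + 2)) * ρ) :
    (∃ c : Fin n → Fc r D G, (∀ j, Hom0 (c j)) ∧ (∀ j, On H (c j)) ∧
      ∀ a : Fin n → ℤ, (∀ M z, IsOfFinAddOrder (AJ (∑ j, a j • c j) M z)) → a = 0) ∧
    ∀ c : Fin (n + 1) → Fc r D G, (∀ j, Hom0 (c j)) → (∀ j, On H (c j)) →
      ∃ a : Fin (n + 1) → ℤ, a ≠ 0 ∧ ∀ M z, IsOfFinAddOrder (AJ (∑ j, a j • c j) M z) := by
  have hm : LibCV66.mul r D =
      r.choose D * r.choose (D + 1) - r.choose (r + 1 - D) * r.choose (D + 2) :=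
    LibMul34.mul_eq r D
  rw [← hm] at hn
  have ht := LibCV66.exists_tests r D
  clear hm
  generalize LibCV66.mul r D = b at hn ht
  obtain ⟨p, hp, hx⟩ := ht
  constructor
  · let e : Fin b × Fin ρ ≃ Fin n := finProdFinEquiv.trans (finCongr hn.symm)
    let v : Fin n → Fc r D G := fun j =>
      Finsupp.single ((p (e.symm j).1).1, fun i => (p (e.symm j).1).2 i • R (e.symm j).2) 1 -
        Finsupp.single ((p (e.symm j).1).1, 0) 1
    refine ⟨v, fun j M => ?_, fun j P hP i => ?_, fun a ha => ?_⟩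
    · rw [Finsupp.sum_sub_index (fun _ _ _ => sub_mul _ _ _),
        Finsupp.sum_single_index (zero_mul _), Finsupp.sum_single_index (zero_mul _), sub_self]
    · rcases Finset.mem_union.1 (Finsupp.support_sub hP) with h1 | h1
      · rw [Finset.mem_singleton.1 (Finsupp.support_single_subset h1)]
        exact zsmul_mem (hR _) _
      · rw [Finset.mem_singleton.1 (Finsupp.support_single_subset h1)]
        exact zero_mem _
    · have hv : ∀ j q, ajH q (v j) = LibCV66.kf (p (e.symm j).1) q • R (e.symm j).2 := by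
        intro j q
        rw [map_sub, ajH_single, ajH_single]
        simp only [Pi.zero_apply, smul_zero, Finset.sum_const_zero, sub_zero, one_smul, smul_smul]
        rw [← Finset.sum_smul]
        congr 1
        have h1 := kf_lin (p (e.symm j).1).1 (p (e.symm j).1).2 q
        rw [Prod.mk.eta] at h1
        rw [h1]
        exact Finset.sum_congr rfl fun i _ => by ring
      have h2 : ∀ q, ∀ y : Fin ρ, ∑ i, a (e (i, y)) * LibCV66.kf (p i) q = 0 := by
        intro q y
        have h3 := ha q.1 q.2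
        rw [← ajH_eq, Prod.mk.eta, map_sum] at h3
        simp only [map_zsmul, hv] at h3
        rw [isOfFinAddOrder_iff_zsmul_eq_zero] at h3
        obtain ⟨m, hm0, h4⟩ := h3
        rw [← e.sum_comp, Fintype.sum_prod_type, Finset.sum_comm] at h4
        simp only [Equiv.symm_apply_apply, Finset.smul_sum, smul_smul] at h4
        have h5 : ∑ y, (m * ∑ i, a (e (i, y)) * LibCV66.kf (p i) q) • R y = 0 := by
          rw [← h4]
          refine Finset.sum_congr rfl fun y _ => ?_
          rw [Finset.mul_sum, Finset.sum_smul]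
        have h6 := Fintype.linearIndependent_iff.1 hR1 _ h5 y
        exact (mul_eq_zero.1 h6).resolve_left hm0
      funext j
      have h7 := hp (fun i => a (e (i, (e.symm j).2))) (fun q => h2 q _) (e.symm j).1
      simpa using h7
  · intro c hc hcH
    -- coordinates
    have h1 : ∀ (j : Fin (n + 1)) (i : Fin b), ∃ k : ℤ, k ≠ 0 ∧
        k • ajH (p i) (c j) ∈ AddSubgroup.closure (Set.range R) := fun j i =>
      hR2 _ (ajH_mem (hcH j) _)
    choose k hk hk' using h1
    let κ : ℤ := ∏ s : Fin (n + 1) × Fin b, k s.1 s.2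
    have hκ : κ ≠ 0 := Finset.prod_ne_zero_iff.2 fun s _ => hk s.1 s.2
    have h2 : ∀ (j : Fin (n + 1)) (i : Fin b), ∃ x : Fin ρ → ℤ,
        ∑ y, x y • R y = κ • ajH (p i) (c j) := by
      intro j i
      have h3 : κ • ajH (p i) (c j) ∈ AddSubgroup.closure (Set.range R) := by
        have h4 := Finset.prod_erase_mul Finset.univ
          (fun s : Fin (n + 1) × Fin b => k s.1 s.2) (Finset.mem_univ (j, i))
        rw [show κ = _ from h4.symm, mul_smul]
        exact zsmul_mem (hk' j i) _
      rw [← Submodule.span_int_eq_addSubgroupClosure] at h3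
      exact (Submodule.mem_span_range_iff_exists_fun ℤ).1 h3
    choose x hx' using h2
    have h5 : ¬ LinearIndependent ℤ (fun j : Fin (n + 1) =>
        (fun s : Fin b × Fin ρ => x j s.1 s.2)) := by
      intro h
      have h6 := h.fintype_card_le_finrank
      rw [Module.finrank_fintype_fun_eq_card, Fintype.card_prod, Fintype.card_fin,
        Fintype.card_fin, Fintype.card_fin, ← hn] at h6
      omega
    rw [Fintype.not_linearIndependent_iff] at h5
    obtain ⟨a, ha, j₀, hj₀⟩ := h5
    refine ⟨a, fun h => hj₀ (by rw [h]; rfl), fun M z => ?_⟩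
    rw [← ajH_eq]
    obtain ⟨m, a', hm0, hq⟩ := hx (M, z)
    rw [isOfFinAddOrder_iff_zsmul_eq_zero]
    refine ⟨κ * m, mul_ne_zero hκ hm0, ?_⟩
    rw [mul_smul, ajH_relation hq, Finset.smul_sum]
    refine Finset.sum_eq_zero fun i _ => ?_
    rw [smul_comm κ (a' i), map_sum, Finset.smul_sum]
    have h7 : ∑ j, κ • ajH (p i) (a j • c j) = 0 := by
      have h8 : ∀ j, κ • ajH (p i) (a j • c j) = ∑ y, (a j * x j i y) • R y := by
        intro j
        rw [map_zsmul, smul_comm, ← hx' j i, Finset.smul_sum]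
        exact Finset.sum_congr rfl fun y _ => by rw [smul_smul]
      simp only [h8]
      rw [Finset.sum_comm]
      refine Finset.sum_eq_zero fun y _ => ?_
      rw [← Finset.sum_smul]
      have h9 := congrFun ha (i, y)
      rw [Finset.sum_apply] at h9
      simp only [Pi.smul_apply, smul_eq_mul, Pi.zero_apply] at h9
      rw [h9, zero_smul]
    rw [h7, smul_zero]

end Pool.Agent.LibRG11
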