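import Pool.Agent.LibRG11.Exist
import Pool.Agent.LibRG11.Pos
import Pool.Agent.LibRG11.S5
import Pool.Agent.LibRG11.S6
import Pool.Agent.LibRG11.S7

/-!
The height pairing of cycles on a power of an elliptic curve: non-degeneracy, ranks, determinants.
-/

open WeierstrassCurve Pool.Agent.LibBH2 Pool.Agent.LibIG50 Pool.Agent.LibCHd Pool.Agent.LibGG
  Pool.Agent.LibAC34 Pool.Agent.LibAF11
open scoped Classical

namespace Pool.Agent.LibRG11

/-- the combinations on `H` -/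
def OnS {A : Type} [AddCommGroup A] (r D : ℕ) (H : AddSubgroup A) : AddSubgroup (Fc r D A) where
  carrier := {c | On H c}
  zero_mem' := by
    intro p hp
    exact absurd hp (by simp)
  add_mem' := by
    intro a b ha hb p hp
    rcases Finset.mem_union.1 (Finsupp.support_add hp) with h | h
    · exact ha p h
    · exact hb p h
  neg_mem' := by
    intro a ha p hp
    rw [Finsupp.support_neg] at hp
    exact ha p hp

/-- linear independence and torsion -/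
theorem lin_iff {A : Type} [AddCommGroup A] {n : ℕ} (x : Fin n → A) :
    LinearIndependent ℤ x ↔ ∀ a : Fin n → ℤ, IsOfFinAddOrder (∑ j, a j • x j) → a = 0 := by
  rw [Fintype.linearIndependent_iff]
  constructor
  · intro h a ha
    obtain ⟨m, hm, h1⟩ := isOfFinAddOrder_iff_zsmul_eq_zero.1 ha
    rw [Finset.smul_sum] at h1
    simp only [smul_smul] at h1
    funext j
    exact (mul_eq_zero.1 (h (fun j => m * a j) h1 j)).resolve_left hm
  · intro h a ha j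
    have h1 := h a (by rw [ha]; exact IsOfFinAddOrder.zero)
    rw [h1]
    rfl

variable {K : Type} [Field K] [Algebra K Qb] {E : WeierstrassCurve K}

section cls
variable {F : Type} [Field F] [Algebra Qb F] {r D : ℕ}

theorem tors_iff [(E⁄Qb).IsElliptic] {G : AddSubgroup E.toAffine.Point} (hG : Self E G)
    {ξ : Fin D → ((E⁄Qb)⁄F).toAffine.Point}
    (hξ : IsGen 0 (Algebra.ofId Qb F) (fun _ : Fin D => E⁄Qb) ξ)
    {c : Fc r D E.toAffine.Point} (hc : Hom0 c) (hcG : On G c) :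
    IsOfFinAddOrder (clE E ξ c) ↔ ∀ M z, IsOfFinAddOrder (AJ c M z) :=
  ⟨fun h M z => aj_of_tors hξ h M z, fun h => tors_of_aj hG hξ hc hcG h⟩

theorem clE_comb (ξ : Fin D → ((E⁄Qb)⁄F).toAffine.Point) {n : ℕ}
    (c : Fin n → Fc r D E.toAffine.Point) (a : Fin n → ℤ) :
    clE E ξ (∑ j, a j • c j) = ∑ j, a j • clE E ξ (c j) := by
  show clH ξ (∑ j, a j • c j) = _
  rw [map_sum]
  refine Finset.sum_congr rfl fun j _ => ?_
  rw [map_zsmul]
  rfl

theorem lin_iff_aj [(E⁄Qb).IsElliptic] {G : AddSubgroup E.toAffine.Point} (hG : Self E G)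
    {ξ : Fin D → ((E⁄Qb)⁄F).toAffine.Point}
    (hξ : IsGen 0 (Algebra.ofId Qb F) (fun _ : Fin D => E⁄Qb) ξ) {n : ℕ}
    {c : Fin n → Fc r D E.toAffine.Point} (hc : ∀ j, Hom0 (c j)) (hcG : ∀ j, On G (c j)) :
    LinearIndependent ℤ (fun j => clE E ξ (c j)) ↔
      ∀ a : Fin n → ℤ, (∀ M z, IsOfFinAddOrder (AJ (∑ j, a j • c j) M z)) → a = 0 := by
  rw [lin_iff]
  refine forall_congr' fun a => ?_
  rw [← clE_comb, tors_iff hG hξ]
  · exact (HomG r D _).sum_mem fun j _ => (HomG r D _).zsmul_mem (hc j) _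
  · exact (OnS r D G).sum_mem fun j _ => (OnS r D G).zsmul_mem (hcG j) _

theorem mem_V {G : AddSubgroup E.toAffine.Point} {ξ : Fin D → ((E⁄Qb)⁄F).toAffine.Point}
    {x : CH (fun _ : Fin r => E⁄Qb) (pt0 Qb) D} (hx : x ∈ V E ξ G r) :
    ∃ c, Hom0 c ∧ On G c ∧ clE E ξ c = x := by
  have h1 : V E ξ G r ≤ (HomG r D E.toAffine.Point ⊓ OnS r D G).map (clH ξ) := by
    unfold V
    rw [AddSubgroup.closure_le]
    rintro _ ⟨c, h1, h2, rfl⟩
    exact ⟨c, ⟨h1, h2⟩, rfl⟩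
  obtain ⟨c, ⟨h2, h3⟩, h4⟩ := h1 hx
  exact ⟨c, h2, h3, h4⟩

theorem rank_V [(E⁄Qb).IsElliptic] {G : AddSubgroup E.toAffine.Point} (hG : Self E G)
    {ξ : Fin D → ((E⁄Qb)⁄F).toAffine.Point}
    (hξ : IsGen 0 (Algebra.ofId Qb F) (fun _ : Fin D => E⁄Qb) ξ) {n : ℕ}
    (h1 : ∃ c : Fin n → Fc r D E.toAffine.Point, (∀ j, Hom0 (c j)) ∧ (∀ j, On G (c j)) ∧
      ∀ a : Fin n → ℤ, (∀ M z, IsOfFinAddOrder (AJ (∑ j, a j • c j) M z)) → a = 0)
    (h2 : ∀ c : Fin (n + 1) → Fc r D E.toAffine.Point, (∀ j, Hom0 (c j)) → (∀ j, On G (c j)) →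
      ∃ a : Fin (n + 1) → ℤ, a ≠ 0 ∧ ∀ M z, IsOfFinAddOrder (AJ (∑ j, a j • c j) M z)) :
    Module.rank ℤ (V E ξ G r) = n := by
  apply le_antisymm
  · refine rank_le fun s hs => ?_
    by_contra hlt
    push Not at hlt
    obtain ⟨t, hts, ht⟩ := Finset.exists_subset_card_eq hlt
    let ε : Fin (n + 1) ≃ t := (Fintype.equivFinOfCardEq (by rw [Fintype.card_coe, ht])).symm
    have hex : ∀ x : V E ξ G r, ∃ c : Fc r D E.toAffine.Point, Hom0 c ∧ On G c ∧
        clE E ξ c = x.1 := fun x => mem_V x.2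
    choose f hf1 hf2 hf3 using hex
    have h3 : LinearIndependent ℤ fun j : Fin (n + 1) => ((ε j : V E ξ G r)) := by
      have h4 := hs.comp (fun j : Fin (n + 1) => (⟨(ε j : V E ξ G r), hts (ε j).2⟩ : s)) (by
        intro i j hij
        apply ε.injective
        apply Subtype.ext
        exact congrArg (fun x : s => (x : V E ξ G r)) hij)
      exact h4
    have h5 : LinearIndependent ℤ fun j : Fin (n + 1) => clE E ξ (f (ε j)) := by
      have h6 := h3.map' (V E ξ G r).toIntSubmodule.subtype (Submodule.ker_subtype _)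
      have h7 : (fun j : Fin (n + 1) => clE E ξ (f (ε j))) =
          (V E ξ G r).toIntSubmodule.subtype ∘ fun j : Fin (n + 1) => ((ε j : V E ξ G r)) :=
        funext fun j => hf3 (ε j)
      rw [h7]
      exact h6
    rw [lin_iff_aj hG hξ (fun j => hf1 _) (fun j => hf2 _)] at h5
    obtain ⟨a, ha, h7⟩ := h2 (fun j => f (ε j)) (fun j => hf1 _) (fun j => hf2 _)
    exact ha (h5 a h7)
  · obtain ⟨c, hc, hcG, h3⟩ := h1
    rw [← lin_iff_aj hG hξ hc hcG] at h3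
    have h4 : LinearIndependent ℤ fun j : Fin n =>
        (⟨clE E ξ (c j), AddSubgroup.subset_closure ⟨c j, hc j, hcG j, rfl⟩⟩ : V E ξ G r) :=
      LinearIndependent.of_comp (V E ξ G r).toIntSubmodule.subtype h3
    have h5 := h4.cardinal_le_rank
    rwa [Cardinal.mk_fin] at h5

end cls

section ht
variable {F : ℕ → Type} [∀ D, Field (F D)] [∀ D, Algebra Qb (F D)]
  {ξ : ∀ D, Fin D → ((E⁄Qb)⁄(F D)).toAffine.Point} {h : E.toAffine.Point → ℝ}
  {G : AddSubgroup E.toAffine.Point}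

theorem nonDeg [(E⁄Qb).IsElliptic] (hG : Self E G)
    (hξ : ∀ D, IsGen 0 (Algebra.ofId Qb (F D)) (fun _ : Fin D => E⁄Qb) (ξ D))
    (hh : ∀ P Q, h (P + Q) + h (P - Q) = 2 * h P + 2 * h Q)
    (h0 : ∀ P, h P = 0 → IsOfFinAddOrder P) : NonDeg E ξ h G :=
  fun _ D _ hr _ hc hcG hp =>
    tors_of_aj hG (hξ D) hc hcG (aj_of_pair hr hh h0 G hc hcG hp)

theorem dets [(E⁄Qb).IsElliptic] (hG : Self E G)
    (hξ : ∀ D, IsGen 0 (Algebra.ofId Qb (F D)) (fun _ : Fin D => E⁄Qb) (ξ D))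
    (hh : ∀ P Q, h (P + Q) + h (P - Q) = 2 * h P + 2 * h Q)
    (h0 : ∀ P, h P = 0 → IsOfFinAddOrder P) (hfin : ∀ B : ℝ, {P | h P ≤ B}.Finite) :
    Dets E ξ h G := by
  rintro ρ R ⟨hR, hR1, hR2⟩
  refine ⟨reg_ne hh hfin hR1, fun r D D' hr => ?_⟩
  obtain ⟨k1, k2⟩ := rank_aj (r := r) (D := D) G R hR hR1 hR2 rfl
  refine ⟨rank_V hG (hξ D) k1 k2, fun c c' hc hc' => ?_⟩
  obtain ⟨q, hq, hq'⟩ := det_pair hr hh h0 G R hR hR1 hR2 rfl c c' (fun j => (hc j).1)
    (fun j => (hc j).2) (fun j => (hc' j).1) (fun j => (hc' j).2)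
  refine ⟨q, hq, ?_⟩
  unfold Ind
  rw [hq', lin_iff_aj hG (hξ D) (fun j => (hc j).1) (fun j => (hc j).2),
    lin_iff_aj hG (hξ D') (fun j => (hc' j).1) (fun j => (hc' j).2)]
  exact Iff.rfl

end ht

theorem self_of_pw {Γ : Grid} (h : LibAC34.Pw Γ) {G : AddSubgroup E.toAffine.Point}
    [hE : (E⁄Qb).IsElliptic] (hG : ∀ P ∈ G, constPt Qb P ∈ Γ (E⁄Qb)) : Self E G := by
  intro a ha
  exact (pwC_of_pw h) (fun _ => E⁄Qb) (fun _ => hE) (fun i => constPt Qb (a i))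
    fun i => hG _ (ha i)

end Pool.Agent.LibRG11
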