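import Pool.Agent.LibRG11.CycDef
import Pool.Agent.LibRG11.Final
import Pool.Agent.LibER66.RankOne
import Pool.Agent.LibAC34.HG2
import Pool.Agent.LibGG.G6

/-!
Elliptic curves whose group of rational points has rank at most one over the endomorphisms.
-/

open WeierstrassCurve Pool.Agent.LibBH2 Pool.Agent.LibIG50 Pool.Agent.LibCHd Pool.Agent.LibGG
  Pool.Agent.LibAC34 Pool.Agent.LibAF11
open scoped Classical

namespace Pool.Agent.LibRG11

variable {K : Type} [Field K] [Algebra K Qb]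

/-- multiplication by an integer -/
noncomputable def mulHom (W : WeierstrassCurve Qb) [W.IsElliptic] (a : ℤ) : Hom W W where
  f F _ _ P := a • P
  add F _ _ P Q := smul_add a P Q
  nat F G _ _ _ _ σ P := (map_zsmul (mp σ) a P).symm
  spe K _ _ v P p h := spR_zsmul a h

/-- homomorphisms in the two forms -/
noncomputable def toHm' {V W : WeierstrassCurve Qb} (φ : Hom V W) : Hm V W where
  f F := AddMonoidHom.mk' (φ.f F) (φ.add F)
  nat := φ.nat
  sp := φ.spe

theorem cyc_of_rank (E : WeierstrassCurve K) [E.IsElliptic]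
    (h : Module.rank ℤ E.toAffine.Point ≤ 1) : Cyc E := by
  have hE' : (E⁄Qb).IsElliptic := inferInstanceAs (E.map (algebraMap K Qb)).IsElliptic
  have hc : ∀ (a : ℤ) (P : E.toAffine.Point), (mulHom (E⁄Qb) a).f Qb
      (constPt Qb (constPt Qb P)) = constPt Qb (constPt Qb (a • P)) := by
    intro a P
    change a • (cHom (E⁄Qb) (cHom E P)) = cHom (E⁄Qb) (cHom E (a • P))
    rw [map_zsmul, map_zsmul]
  by_cases ht : ∀ P : E.toAffine.Point, IsOfFinAddOrder P
  · refine ⟨0, fun P => ?_⟩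
    obtain ⟨n, hn, h1⟩ := isOfFinAddOrder_iff_zsmul_eq_zero.1 (ht P)
    refine ⟨n, mulHom (E⁄Qb) 0, hn, ?_⟩
    rw [hc, h1, zero_smul]
  · push Not at ht
    obtain ⟨P₀, hP₀⟩ := ht
    refine ⟨P₀, fun P => ?_⟩
    obtain ⟨a, b, hab, h1⟩ := LibER66.relation_of_rank h P₀ P
    have hb : b ≠ 0 := by
      intro hb
      rw [hb, zero_smul] at h1
      have ha : a ≠ 0 := hab.resolve_right (not_not.2 hb)
      exact hP₀ (isOfFinAddOrder_iff_zsmul_eq_zero.2 ⟨a, ha, h1⟩)
    refine ⟨b, mulHom (E⁄Qb) a, hb, ?_⟩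
    rw [hc, h1]

theorem self_top_of_cyc (E : WeierstrassCurve K) [E.IsElliptic] (h : Cyc E) : Self E ⊤ := by
  have hE' : (E⁄Qb).IsElliptic := inferInstanceAs (E.map (algebraMap K Qb)).IsElliptic
  obtain ⟨P₀, hP₀⟩ := h
  let S : AddSubgroup (E⁄Qb).toAffine.Point := (cHom E).range
  let Γ : Grid := fun W => if hW : E⁄Qb = W then hW ▸ S else ⊥
  have hS : Γ (E⁄Qb) = S := dif_pos rfl
  have hbot : ∀ W, E⁄Qb ≠ W → Γ W = ⊥ := fun W hW => dif_neg hW
  have himg : ∀ P : E.toAffine.Point, ∃ (n : ℤ) (φ : Hm (E⁄Qb) (E⁄Qb)), n ≠ 0 ∧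
      φ.k0 (constPt Qb P₀) = n • cHom E P := by
    intro P
    obtain ⟨n, φ, hn, h1⟩ := hP₀ P
    refine ⟨n, toHm' φ, hn, ?_⟩
    have h2 : constPt Qb ((toHm' φ).k0 (constPt Qb P₀)) =
        constPt Qb (constPt Qb (n • P) : (E⁄Qb).toAffine.Point) := by
      rw [← (toHm' φ).const]
      exact h1
    have h3 := LibGG.constPt_injective Qb (E⁄Qb) h2
    rw [h3]
    change cHom E (n • P) = n • cHom E P
    rw [map_zsmul]
  have hpw : Pw Γ := by
    intro W W' hW hW' P hP Q hQ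
    by_cases h1 : E⁄Qb = W
    · by_cases h2 : E⁄Qb = W'
      · subst h1
        subst h2
        rw [hS] at hP hQ
        obtain ⟨P, rfl⟩ := hP
        obtain ⟨Q, rfl⟩ := hQ
        obtain ⟨n, φ, hn, h3⟩ := himg P
        obtain ⟨m, ψ, hm, h4⟩ := himg Q
        have h5 : IsOfFinAddOrder (zc (constPt Qb P₀ : (E⁄Qb).toAffine.Point)
            (constPt Qb P₀ : (E⁄Qb).toAffine.Point) : CH0 (E⁄Qb) (E⁄Qb)) :=
          isOfFinAddOrder_iff_nsmul_eq_zero.2 ⟨2, two_pos, zc_self_torsion _⟩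
        have h6 := zc_map φ.algMap ψ.algMap h5
        rw [h3, h4, LibER66.zc_zsmul_left, LibER66.zc_zsmul_right] at h6
        exact LibER66.fin_of_zsmul hm (LibER66.fin_of_zsmul hn h6)
      · rw [hbot W' h2] at hQ
        rw [AddSubgroup.mem_bot.1 hQ, LibER66.zc_zero_right]
        exact IsOfFinAddOrder.zero
    · rw [hbot W h1] at hP
      rw [AddSubgroup.mem_bot.1 hP, LibER66.zc_zero_left]
      exact IsOfFinAddOrder.zero
  refine self_of_pw hpw fun P _ => ?_
  rw [hS]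
  exact ⟨P, rfl⟩

end Pool.Agent.LibRG11
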