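import Pool.Agent.LibAF11.Defs

/-!
Elliptic curves whose group of rational points has rank at most one over the endomorphisms.
-/

open WeierstrassCurve Pool.Agent.LibBH2 Pool.Agent.LibIG50 Pool.Agent.LibCHd Pool.Agent.LibGG
  Pool.Agent.LibAC34 Pool.Agent.LibAF11
open scoped Classical

namespace Pool.Agent.LibRG11

/-- there is a point `P₀` in `E(K)` such that a non-zero multiple of every point of `E(K)` is the image
of `P₀` under an endomorphism of `E` -/
def Cyc {K : Type} [Field K] [Algebra K Qb] (E : WeierstrassCurve K) : Prop :=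
  ∃ P₀ : E.toAffine.Point, ∀ P : E.toAffine.Point, ∃ (n : ℤ) (φ : Hom (E⁄Qb) (E⁄Qb)), n ≠ 0 ∧
    φ.f Qb (constPt Qb (constPt Qb P₀)) = constPt Qb (constPt Qb (n • P))

end Pool.Agent.LibRG11
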