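import Pool.Agent.LibAF11.Defs

/-!
The height pairing of cycles on a power of an elliptic curve: definitions.
-/

open WeierstrassCurve Pool.Agent.LibBH2 Pool.Agent.LibIG50 Pool.Agent.LibCHd Pool.Agent.LibGG
  Pool.Agent.LibAC34 Pool.Agent.LibAF11
open scoped Classical

namespace Pool.Agent.LibRG11

/-! ### combinations of translates -/

section comb
variable {G : Type} [AddCommGroup G] {r s t D D' : ℕ}

/-- formal combinations of pairs `(N, g)`, `N` an integral matrix, `g` a vector with components in the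
group `G` -/
abbrev Fc (r D : ℕ) (G : Type) : Type := (Matrix (Fin r) (Fin D) ℤ × (Fin r → G)) →₀ ℤ

/-- all the numbers `∑ m (det Mᵀ N) ^ 2` are zero -/
def Hom0 (c : Fc r D G) : Prop :=
  ∀ M : Matrix (Fin r) (Fin D) ℤ, (c.sum fun p m => m * (M.transpose * p.1).det ^ 2) = 0

/-- the element `det (N | x | N')` of `G`, for a vector `x` with components in `G`: the sum of the
`det (N | e i | N') • x i`, `e i` the `i`-th unit vector -/
def lam (hr : r = D + 1 + D') (N : Matrix (Fin r) (Fin D) ℤ) (x : Fin r → G)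
    (N' : Matrix (Fin r) (Fin D') ℤ) : G :=
  ∑ i, Matrix.det (Matrix.of fun a b =>
    Fin.append (Fin.snoc (N a) (if a = i then 1 else 0)) (N' a) (Fin.cast hr b)) • x i

/-- the pairing `-1/2 ∑ m m' h (det (N | g - g' | N'))` of two combinations `∑ m (N, g)` and
`∑ m' (N', g')` -/
noncomputable def pair (hr : r = D + 1 + D') (h : G → ℝ) (c : Fc r D G) (c' : Fc r D' G) : ℝ :=
  -(1 / 2) * c.sum fun p m => c'.sum fun p' m' => m * m' * h (lam hr p.1 (p.2 - p'.2) p'.1)

/-- the direct image `∑ m (A N, A g)` of `∑ m (N, g)` -/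
noncomputable def push (A : Matrix (Fin s) (Fin r) ℤ) (c : Fc r D G) : Fc s D G :=
  c.mapDomain fun p => (A * p.1, fun i => ∑ j, A i j • p.2 j)

/-- the combination `∑ m ((C | B N), B g)`, if `c` is `∑ m (N, g)` -/
noncomputable def pull (B : Matrix (Fin r) (Fin s) ℤ) (C : Matrix (Fin r) (Fin t) ℤ)
    (c : Fc s D G) : Fc r (t + D) G :=
  c.mapDomain fun p => (Matrix.of fun i => Fin.append (C i) ((B * p.1) i),
    fun i => ∑ j, B i j • p.2 j)

/-- the zero-cycle `(P) - (0)` -/
noncomputable def df (P : G) : Fc 1 0 G :=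
  Finsupp.single (0, fun _ => P) 1 - Finsupp.single (0, fun _ => 0) 1

/-- the points which appear in `c` are in `H` -/
def On (H : AddSubgroup G) (c : Fc r D G) : Prop := ∀ p ∈ c.support, ∀ i, p.2 i ∈ H

end comb

/-! ### the geometry -/

section geo
variable {K : Type} [Field K]

/-- the naive height of a point: the logarithmic height (relative to `K`) of the abscissa -/
noncomputable def nht [Height.AdmissibleAbsValues K] {E : WeierstrassCurve K} :
    E.toAffine.Point → ℝ
  | .zero => 0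
  | .some x _ _ => Height.logHeight₁ x

/-- `h` is the canonical height on `E(K)` (for the divisor `2 (0)`, relative to `K`): it satisfies the
parallelogram law, and the difference with the naive height is bounded -/
def IsCan [Height.AdmissibleAbsValues K] (E : WeierstrassCurve K)
    (h : E.toAffine.Point → ℝ) : Prop :=
  (∀ P Q, h (P + Q) + h (P - Q) = 2 * h P + 2 * h Q) ∧ ∃ C, ∀ P, |h P - nht P| ≤ C

variable [Algebra K Qb] (E : WeierstrassCurve K)

section cls
variable {F : Type} [Field F] [Algebra Qb F] {r D : ℕ}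

/-- the point `N ξ + g` of `E ^ r`, for a point `ξ` of `E ^ D` -/
noncomputable def ptE (ξ : Fin D → ((E⁄Qb)⁄F).toAffine.Point) (N : Matrix (Fin r) (Fin D) ℤ)
    (g : Fin r → E.toAffine.Point) : Pnt (fun _ : Fin r => E⁄Qb) (pt0 Qb) F where
  z i := constPt F (constPt Qb (g i)) + ∑ a, N i a • ξ a
  y _ := 1
  y_ne h := one_ne_zero (congrFun h 0)
  mem _ h := h.elim

/-- the class in `CH_D (E ^ r)` of the cycle `∑ m (N_* E ^ D + g)`, `c = ∑ m (N, g)`, if `ξ` is the
generic point of `E ^ D` -/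
noncomputable def clE (ξ : Fin D → ((E⁄Qb)⁄F).toAffine.Point) (c : Fc r D E.toAffine.Point) :
    CH (fun _ : Fin r => E⁄Qb) (pt0 Qb) D :=
  c.sum fun p m => m • QuotientAddGroup.mk (cyc (ptE E ξ p.1 p.2))

end cls

/-- for all `P` and `Q` in `G` the zero-cycle `(P, Q) - (P, 0) - (0, Q) + (0, 0)` is torsion in the Chow
group `CH_0 (E × E)` -/
def Self (G : AddSubgroup E.toAffine.Point) : Prop :=
  ∀ a : Fin 2 → E.toAffine.Point, (∀ i, a i ∈ G) →
    IsOfFinAddOrder (sq (W := fun _ => E⁄Qb) fun i => constPt Qb (a i))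

/-- `B r D D' c c'`, for homologically trivial combinations `c` and `c'` of translates of images of
`E ^ D` and `E ^ D'` in `E ^ r`, `r = D + 1 + D'`, is a height pairing: biadditive, symmetric, zero if
the class of `c` is torsion, with the projection formula for the homomorphisms `A : E ^ r → E ^ s` with a
section `A'` and a kernel `C : E ^ t → E ^ r`, and equal to the Neron-Tate pairing on `E` -/
structure IsHt {F : ℕ → Type} [∀ D, Field (F D)] [∀ D, Algebra Qb (F D)]
    (ξ : ∀ D, Fin D → ((E⁄Qb)⁄(F D)).toAffine.Point) (h : E.toAffine.Point → ℝ)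
    (B : ∀ r D D' : ℕ, Fc r D E.toAffine.Point → Fc r D' E.toAffine.Point → ℝ) : Prop where
  add : ∀ r D D', r = D + 1 + D' → ∀ c₁ c₂ c', Hom0 c₁ → Hom0 c₂ → Hom0 c' →
    B r D D' (c₁ + c₂) c' = B r D D' c₁ c' + B r D D' c₂ c'
  comm : ∀ r D D', r = D + 1 + D' → ∀ c c', Hom0 c → Hom0 c' → B r D D' c c' = B r D' D c' c
  tors : ∀ r D D', r = D + 1 + D' → ∀ c c', Hom0 c → Hom0 c' →
    IsOfFinAddOrder (clE E (ξ D) c) → B r D D' c c' = 0
  proj : ∀ r s t D D', r = s + t → s = D + 1 + D' → ∀ (A : Matrix (Fin s) (Fin r) ℤ)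
    (A' : Matrix (Fin r) (Fin s) ℤ) (C : Matrix (Fin r) (Fin t) ℤ) (C' : Matrix (Fin t) (Fin r) ℤ),
    A * A' = 1 → A * C = 0 → C' * C = 1 → ∀ c c', Hom0 c → Hom0 c' →
    B r D (t + D') c (pull A' C c') = B s D D' (push A c) c'
  nrm : ∀ P Q, B 1 0 0 (df P) (df Q) = (h (P + Q) - h P - h Q) / 2

end geo

end Pool.Agent.LibRG11
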