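import Pool.Agent.LibRG11.Defs
import Pool.Agent.LibHR84.Bf
import Pool.Agent.LibBH2.T1
import Pool.Agent.LibAC34.HG2

/-!
The canonical height.
-/

open WeierstrassCurve Pool.Agent.LibBH2 Pool.Agent.LibIG50 Pool.Agent.LibCHd Pool.Agent.LibAC34
open scoped Classical

namespace Pool.Agent.LibRG11

section forms
variable {A : Type} [AddCommGroup A] {h : A → ℝ}

/-- the bilinear form with `bl P P = h P` -/
noncomputable def bl (h : A → ℝ) (P Q : A) : ℝ := LibHR84.bform h P Q / 2

variable (hh : ∀ P Q : A, h (P + Q) + h (P - Q) = 2 * h P + 2 * h Q)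

theorem bl_comm (h : A → ℝ) (P Q : A) : bl h P Q = bl h Q P := by
  unfold bl LibHR84.bform
  rw [add_comm P Q]
  ring

include hh

theorem bl_self (P : A) : bl h P P = h P := by
  unfold bl
  rw [LibHR84.bform_self hh]
  ring

theorem bl_add (P Q R : A) : bl h P (Q + R) = bl h P Q + bl h P R := by
  unfold bl
  rw [LibHR84.bform_add hh]
  ring

/-- the homomorphism `bl h P` -/
noncomputable def blH (P : A) : A →+ ℝ := AddMonoidHom.mk' (bl h P) (bl_add hh P)

theorem bl_zsmul (n : ℤ) (P Q : A) : bl h P (n • Q) = n * bl h P Q := by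
  have h1 := map_zsmul (blH hh P) n Q
  rw [zsmul_eq_mul] at h1
  exact h1

theorem bl_sum {ι : Type} (s : Finset ι) (P : A) (Q : ι → A) :
    bl h P (∑ i ∈ s, Q i) = ∑ i ∈ s, bl h P (Q i) :=
  map_sum (blH hh P) Q s

theorem bl_zero (P : A) : bl h P 0 = 0 := map_zero (blH hh P)

theorem bl_neg (P Q : A) : bl h P (-Q) = -bl h P Q := map_neg (blH hh P) Q

theorem bl_tors (P : A) {Q : A} (hQ : IsOfFinAddOrder Q) : bl h P Q = 0 := by
  obtain ⟨n, hn, h1⟩ := isOfFinAddOrder_iff_zsmul_eq_zero.1 hQ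
  have h2 := bl_zsmul hh n P Q
  rw [h1, bl_zero hh] at h2
  have h3 : (n : ℝ) ≠ 0 := by exact_mod_cast hn
  exact (mul_eq_zero.1 h2.symm).resolve_left h3

theorem h_sub (P Q : A) : h (P - Q) = h P + h Q - 2 * bl h P Q := by
  unfold bl
  rw [LibHR84.bform_sub_eq hh]
  ring

theorem h_zsmul (n : ℤ) (P : A) : h (n • P) = (n : ℝ) ^ 2 * h P := by
  rw [← bl_self hh, bl_zsmul hh, bl_comm, bl_zsmul hh, bl_self hh]
  ring

theorem h_tors {P : A} (hP : IsOfFinAddOrder P) : h P = 0 := by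
  rw [← bl_self hh]
  exact bl_tors hh P hP

theorem h_neg (P : A) : h (-P) = h P := LibHR84.par_neg hh P

end forms

section can
variable {K : Type} [Field K] [NumberField K] {E : WeierstrassCurve K}

theorem XIn_K (R : (E⁄K).toAffine.Point) : XIn R := by
  match R with
  | .zero => exact Or.inl rfl
  | .some x y h => exact Or.inr ⟨x, y, h, rfl⟩

theorem nh_const (P : E.toAffine.Point) : nh (constPt K P : (E⁄K).toAffine.Point) = nht P := by
  match P with
  | .zero => rfl
  | .some x y h =>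
    have h1 : ∃ x₀ : K, algebraMap K K x₀ = algebraMap K K x := ⟨x, rfl⟩
    show (if h : ∃ x₀ : K, algebraMap K K x₀ = algebraMap K K x then
      Height.logHeight₁ h.choose else 0) = Height.logHeight₁ x
    rw [dif_pos h1]
    congr 1
    exact h1.choose_spec

theorem nht_nonneg (P : E.toAffine.Point) : 0 ≤ nht P := by
  rw [← nh_const]
  exact nh_nonneg' _

theorem const_injK : Function.Injective (constPt K : E.toAffine.Point → (E⁄K).toAffine.Point) := by
  intro p q h
  match p, q, h with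
  | .zero, .zero, _ => rfl
  | .zero, .some x y h, h' => exact absurd h' (by intro h''; cases h'')
  | .some x y h, .zero, h' => exact absurd h' (by intro h''; cases h'')
  | .some x y h, .some x' y' h', h'' =>
    injection h'' with e1 e2
    have e1' : x = x' := (algebraMap K K).injective e1
    have e2' : y = y' := (algebraMap K K).injective e2
    subst e1' e2'
    rfl

theorem nht_finite (B : ℝ) : {P : E.toAffine.Point | nht P ≤ B}.Finite := by
  refine Set.Finite.subset (Set.Finite.preimage (const_injK.injOn)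
    (finite_nh_le (W := E) (L := K) B)) ?_
  intro P hP
  refine ⟨XIn_K _, ?_⟩
  rw [nh_const]
  exact hP

theorem IsCan.nonneg {h : E.toAffine.Point → ℝ} (hc : IsCan E h) (P : E.toAffine.Point) :
    0 ≤ h P := by
  obtain ⟨hh, C, hC⟩ := hc
  by_contra hneg
  push Not at hneg
  obtain ⟨n, hn⟩ := exists_nat_gt (C / -h P)
  have h1 := hC (((n + 1 : ℕ) : ℤ) • P)
  rw [h_zsmul hh, abs_le] at h1
  have h2 := nht_nonneg (((n + 1 : ℕ) : ℤ) • P)
  rw [div_lt_iff₀ (by linarith)] at hn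
  have hcast : (((n + 1 : ℕ) : ℤ) : ℝ) = (n : ℝ) + 1 := by push_cast; ring
  rw [hcast] at h1
  have h3 : (n : ℝ) * -h P ≤ ((n : ℝ) + 1) ^ 2 * -h P := by
    have : (n : ℝ) ≤ ((n : ℝ) + 1) ^ 2 := by nlinarith [Nat.cast_nonneg (α := ℝ) n]
    nlinarith
  nlinarith [h1.1]

theorem IsCan.eq_zero_iff {h : E.toAffine.Point → ℝ} (hc : IsCan E h) (P : E.toAffine.Point) :
    h P = 0 ↔ IsOfFinAddOrder P := by
  obtain ⟨hh, C, hC⟩ := hc
  refine ⟨fun h0 => ?_, fun h0 => h_tors hh h0⟩
  rw [← finite_multiples]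
  refine (nht_finite C).subset ?_
  rintro S ⟨n, rfl⟩
  have h1 := hC (n • P)
  have h2 : h (n • P) = 0 := by
    have := h_zsmul hh (n : ℤ) P
    rw [natCast_zsmul, h0, mul_zero] at this
    exact this
  rw [h2, zero_sub, abs_neg] at h1
  exact le_trans (le_abs_self _) h1

theorem exists_can (E : WeierstrassCurve K) [E.IsElliptic] : ∃ h, IsCan E h := by
  obtain ⟨C, hC0, hC⟩ := approxPar E
  obtain ⟨h, h1, h2, -⟩ := tate C hC0 ⊤ (fun P : E.toAffine.Point => nht P) rfl (by
    intro R _ S _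
    have h3 := hC K (constPt K R) (constPt K S) (XIn_K _) (XIn_K _) (XIn_K _) (XIn_K _)
    have h4 : (constPt K R : (E⁄K).toAffine.Point) - constPt K S = constPt K (R - S) := by
      rw [sub_eq_add_neg, sub_eq_add_neg, HG_const_add]
      congr 1
      have h5 := HG_const_zsmul K (-1) S
      rw [neg_one_zsmul, neg_one_zsmul] at h5
      exact h5.symm
    rw [← HG_const_add, h4, nh_const, nh_const, nh_const, nh_const] at h3
    exact h3) nht_nonneg
  exact ⟨h, fun P Q => h2 P trivial Q trivial, C, fun P => h1 P trivial⟩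

theorem IsCan.unique {h h' : E.toAffine.Point → ℝ} (hc : IsCan E h) (hc' : IsCan E h') :
    h = h' := by
  obtain ⟨hh, C, hC⟩ := hc
  obtain ⟨hh', C', hC'⟩ := hc'
  funext P
  by_contra hne
  have hpos : 0 < |h P - h' P| := abs_pos.2 (sub_ne_zero.2 hne)
  obtain ⟨n, hn⟩ := exists_nat_gt ((C + C') / |h P - h' P|)
  rw [div_lt_iff₀ hpos] at hn
  have h1 := hC (((n + 1 : ℕ) : ℤ) • P)
  have h2 := hC' (((n + 1 : ℕ) : ℤ) • P)
  rw [h_zsmul hh] at h1
  rw [h_zsmul hh'] at h2
  have h3 : |(((n + 1 : ℕ) : ℤ) : ℝ) ^ 2 * h P - (((n + 1 : ℕ) : ℤ) : ℝ) ^ 2 * h' P| ≤ C + C' := by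
    have := abs_sub_le ((((n + 1 : ℕ) : ℤ) : ℝ) ^ 2 * h P) (nht (((n + 1 : ℕ) : ℤ) • P))
      ((((n + 1 : ℕ) : ℤ) : ℝ) ^ 2 * h' P)
    rw [abs_sub_comm (nht (((n + 1 : ℕ) : ℤ) • P))] at this
    linarith
  rw [← mul_sub, abs_mul, abs_of_nonneg (by positivity)] at h3
  push_cast at h3
  have h4 : (n : ℝ) ≤ ((n : ℝ) + 1) ^ 2 := by nlinarith [Nat.cast_nonneg (α := ℝ) n]
  nlinarith

end can

end Pool.Agent.LibRG11
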