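import Pool.Agent.LibRG11.Defs

/-!
The symmetry of the pairing.
-/

open scoped Classical

namespace Pool.Agent.LibRG11

variable {G : Type} [AddCommGroup G] {r D D' : ℕ}

/-- the columns of `(N | x | N')` -/
def colE (hr : r = D + 1 + D') : Fin r ≃ (Fin D ⊕ Fin 1) ⊕ Fin D' :=
  (finCongr hr).trans (finSumFinEquiv.symm.trans
    (Equiv.sumCongr finSumFinEquiv.symm (Equiv.refl _)))

theorem append_colE (hr : r = D + 1 + D') (u : Fin D → ℤ) (y : ℤ) (v : Fin D' → ℤ)
    (s : (Fin D ⊕ Fin 1) ⊕ Fin D') :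
    Fin.append (Fin.snoc u y : Fin (D + 1) → ℤ) v (Fin.cast hr ((colE hr).symm s)) =
      Sum.elim (Sum.elim u fun _ => y) v s := by
  rcases s with (a | a) | a
  · have h1 : Fin.cast hr ((colE hr).symm (Sum.inl (Sum.inl a))) =
        Fin.castAdd D' (Fin.castSucc a) := by
      apply Fin.ext
      simp [colE]
    rw [h1, Fin.append_left, Fin.snoc_castSucc]
    rfl
  · have h1 : Fin.cast hr ((colE hr).symm (Sum.inl (Sum.inr a))) =
        Fin.castAdd D' (Fin.last D) := by
      apply Fin.ext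
      simp [colE]
    rw [h1, Fin.append_left, Fin.snoc_last]
    rfl
  · have h1 : Fin.cast hr ((colE hr).symm (Sum.inr a)) = Fin.natAdd (D + 1) a := by
      apply Fin.ext
      simp [colE]
    rw [h1, Fin.append_right]
    rfl

theorem append_colE' (hr : r = D + 1 + D') (u : Fin D → ℤ) (y : ℤ) (v : Fin D' → ℤ)
    (b : Fin r) :
    Fin.append (Fin.snoc u y : Fin (D + 1) → ℤ) v (Fin.cast hr b) =
      Sum.elim (Sum.elim u fun _ => y) v (colE hr b) := by
  rw [← append_colE hr u y v, Equiv.symm_apply_apply]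

/-- the exchange of the two blocks -/
def swE : (Fin D' ⊕ Fin 1) ⊕ Fin D ≃ (Fin D ⊕ Fin 1) ⊕ Fin D' where
  toFun := Sum.elim (Sum.elim Sum.inr fun u => Sum.inl (Sum.inr u)) fun b => Sum.inl (Sum.inl b)
  invFun := Sum.elim (Sum.elim Sum.inr fun u => Sum.inl (Sum.inr u)) fun b => Sum.inl (Sum.inl b)
  left_inv := by rintro ((a | a) | a) <;> rfl
  right_inv := by rintro ((a | a) | a) <;> rfl

theorem lam_swap (hr : r = D + 1 + D') (hr' : r = D' + 1 + D)
    (N : Matrix (Fin r) (Fin D) ℤ) (x : Fin r → G) (N' : Matrix (Fin r) (Fin D') ℤ) :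
    lam hr' N' x N =
      ((Equiv.Perm.sign ((colE hr').trans (swE.trans (colE hr).symm)) : ℤˣ) : ℤ) •
        lam hr N x N' := by
  unfold lam
  rw [Finset.smul_sum]
  refine Finset.sum_congr rfl fun i _ => ?_
  have h1 := Matrix.det_permute' ((colE hr').trans (swE.trans (colE hr).symm))
    (Matrix.of fun a b =>
      Fin.append (Fin.snoc (N a) (if a = i then 1 else 0)) (N' a) (Fin.cast hr b))
  rw [Int.cast_id] at h1
  rw [smul_smul, ← h1]
  congr 2
  ext a b
  rw [Matrix.submatrix_apply, Matrix.of_apply, Matrix.of_apply, id_eq, append_colE',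
    Equiv.trans_apply, Equiv.trans_apply, append_colE]
  rcases colE hr' b with (s | s) | s <;> rfl

theorem lam_neg (hr : r = D + 1 + D') (N : Matrix (Fin r) (Fin D) ℤ) (x : Fin r → G)
    (N' : Matrix (Fin r) (Fin D') ℤ) : lam hr N (-x) N' = -lam hr N x N' := by
  unfold lam
  rw [← Finset.sum_neg_distrib]
  exact Finset.sum_congr rfl fun i _ => by rw [Pi.neg_apply, smul_neg]

theorem par_neg {h : G → ℝ} (hh : ∀ P Q : G, h (P + Q) + h (P - Q) = 2 * h P + 2 * h Q) (P : G) :
    h (-P) = h P := by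
  have h0 := hh 0 0
  rw [add_zero, sub_zero] at h0
  have h1 := hh 0 P
  rw [zero_add, zero_sub] at h1
  linarith

theorem h_lam_swap (hr : r = D + 1 + D') (hr' : r = D' + 1 + D) {h : G → ℝ}
    (hh : ∀ P Q : G, h (P + Q) + h (P - Q) = 2 * h P + 2 * h Q)
    (N : Matrix (Fin r) (Fin D) ℤ) (x y : Fin r → G) (N' : Matrix (Fin r) (Fin D') ℤ) :
    h (lam hr' N' (y - x) N) = h (lam hr N (x - y) N') := by
  rw [lam_swap hr hr', show y - x = -(x - y) from (neg_sub x y).symm, lam_neg]
  rcases Int.units_eq_one_or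
      (Equiv.Perm.sign ((colE hr').trans (swE.trans (colE hr).symm))) with h1 | h1
  · rw [h1, Units.val_one, one_smul, par_neg hh]
  · rw [h1, Units.val_neg, Units.val_one, neg_smul, one_smul, neg_neg]

/-- S1: symmetry -/
theorem pair_comm (hr : r = D + 1 + D') (hr' : r = D' + 1 + D) {h : G → ℝ}
    (hh : ∀ P Q : G, h (P + Q) + h (P - Q) = 2 * h P + 2 * h Q) (c : Fc r D G) (c' : Fc r D' G) :
    pair hr h c c' = pair hr' h c' c := by
  unfold pair
  rw [Finsupp.sum_comm]
  congr 1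
  refine Finset.sum_congr rfl fun p' _ => Finset.sum_congr rfl fun p _ => ?_
  simp only []
  rw [← h_lam_swap hr hr' hh, mul_comm ((c p : ℤ) : ℝ)]

end Pool.Agent.LibRG11
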