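import Pool.Agent.LibRG11.Defs

/-!
S2: the projection formula.
-/

open scoped Classical

namespace Pool.Agent.LibRG11

variable {G : Type} [AddCommGroup G] {r s t D D' : ℕ}

/-- the determinants -/
theorem S2_sign (hrs : r = s + t)
    {A : Matrix (Fin s) (Fin r) ℤ} {A' : Matrix (Fin r) (Fin s) ℤ} {C : Matrix (Fin r) (Fin t) ℤ}
    {C' : Matrix (Fin t) (Fin r) ℤ} (h1 : A * A' = 1) (h2 : A * C = 0) (h3 : C' * C = 1)
    (e : (Fin (D + 1) ⊕ Fin D') ⊕ Fin t ≃ Fin r) (es : Fin (D + 1) ⊕ Fin D' ≃ Fin s) :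
    ∃ ε : ℤ, (ε = 1 ∨ ε = -1) ∧ ∀ (Z : Matrix (Fin r) (Fin (D + 1)) ℤ)
      (N' : Matrix (Fin s) (Fin D') ℤ),
      ((Matrix.fromCols (Matrix.fromCols Z (A' * N')) C).submatrix id e.symm).det =
        ε * ((Matrix.fromCols (A * Z) N').submatrix id es.symm).det := by
  set C₂ : Matrix (Fin t) (Fin r) ℤ := C' - C' * A' * A with hC₂
  have h4 : C₂ * C = 1 := by
    rw [hC₂, Matrix.sub_mul, h3, Matrix.mul_assoc, h2, Matrix.mul_zero, sub_zero]
  have h5 : C₂ * A' = 0 := by
    rw [hC₂, Matrix.sub_mul, Matrix.mul_assoc (C' * A'), h1, Matrix.mul_one, sub_self]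
  let ρ : Fin r ≃ Fin s ⊕ Fin t := (finCongr hrs).trans finSumFinEquiv.symm
  set P : Matrix (Fin r) (Fin r) ℤ := (Matrix.fromRows A C₂).submatrix ρ id with hP
  set Q : Matrix (Fin r) (Fin r) ℤ := (Matrix.fromCols A' C).submatrix id ρ with hQ
  have hPQ : P * Q = 1 := by
    rw [hP, hQ, ← Matrix.submatrix_mul _ _ _ _ _ Function.bijective_id,
      Matrix.fromRows_mul_fromCols, h1, h2, h4, h5, Matrix.fromBlocks_one,
      Matrix.submatrix_one_equiv]
  have hdet : P.det * Q.det = 1 := by rw [← Matrix.det_mul, hPQ, Matrix.det_one]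
  have hPd : P.det = 1 ∨ P.det = -1 := Int.eq_one_or_neg_one_of_mul_eq_one hdet
  let κ : Fin r ≃ Fin s ⊕ Fin t := e.symm.trans (Equiv.sumCongr es (Equiv.refl _))
  let σ : Equiv.Perm (Fin r) := κ.trans ρ.symm
  have hσ : ((Equiv.Perm.sign σ : ℤˣ) : ℤ) = 1 ∨ ((Equiv.Perm.sign σ : ℤˣ) : ℤ) = -1 := by
    rcases Int.units_eq_one_or (Equiv.Perm.sign σ) with h | h <;> simp [h]
  refine ⟨P.det * (Equiv.Perm.sign σ : ℤˣ), ?_, fun Z N' => ?_⟩
  · rcases hPd with h | h <;> rcases hσ with h' | h' <;> simp [h, h']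
  set M : Matrix (Fin r) (Fin r) ℤ :=
    (Matrix.fromCols (Matrix.fromCols Z (A' * N')) C).submatrix id e.symm with hM
  set X : Matrix (Fin s) (Fin (D + 1) ⊕ Fin D') ℤ := Matrix.fromCols (A * Z) N' with hX
  set Y : Matrix (Fin t) (Fin (D + 1) ⊕ Fin D') ℤ := C₂ * Matrix.fromCols Z (A' * N') with hY
  have hAX : A * Matrix.fromCols Z (A' * N') = X := by
    rw [Matrix.mul_fromCols, ← Matrix.mul_assoc, h1, Matrix.one_mul]
  set V : Matrix (Fin s ⊕ Fin t) (Fin s ⊕ Fin t) ℤ :=
    Matrix.fromBlocks (X.submatrix id es.symm) 0 (Y.submatrix id es.symm) 1 with hV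
  have hPM : P * M = (V.submatrix ρ ρ).submatrix id σ := by
    rw [hP, hM, ← Matrix.submatrix_mul _ _ _ _ _ Function.bijective_id,
      Matrix.fromRows_mul_fromCols, h2, h4, hAX]
    ext i j
    rcases hj : e.symm j with u | v
    · simp only [Matrix.submatrix_apply, hj, id_eq]
      have : ρ (σ j) = Sum.inl (es u) := by
        simp [σ, κ, hj]
      rw [this]
      rcases ρ i with a | b <;> simp [hV, hY]
    · simp only [Matrix.submatrix_apply, hj, id_eq]
      have : ρ (σ j) = Sum.inr v := by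
        simp [σ, κ, hj]
      rw [this]
      rcases ρ i with a | b <;> simp [hV]
  have hVd : V.det = (X.submatrix id es.symm).det := by
    rw [hV, Matrix.det_fromBlocks_zero₁₂, Matrix.det_one, mul_one]
  have e1 : P.det * M.det = (Equiv.Perm.sign σ : ℤˣ) * (X.submatrix id es.symm).det := by
    rw [← Matrix.det_mul, hPM, Matrix.det_permute', Matrix.det_submatrix_equiv_self, hVd,
      Int.cast_id]
  have e2 : P.det * P.det = 1 := by rcases hPd with h | h <;> simp [h]
  calc M.det = P.det * (P.det * M.det) := by rw [← mul_assoc, e2, one_mul]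
    _ = _ := by rw [e1, mul_assoc]

/-- the matrix `(N | x | N')` -/
def S2_mat (hr : r = D + 1 + D') (N : Matrix (Fin r) (Fin D) ℤ) (x : Fin r → ℤ)
    (N' : Matrix (Fin r) (Fin D') ℤ) : Matrix (Fin r) (Fin r) ℤ :=
  Matrix.of fun a b => Fin.append (Fin.snoc (N a) (x a)) (N' a) (Fin.cast hr b)

theorem S2_lam (hr : r = D + 1 + D') (N : Matrix (Fin r) (Fin D) ℤ) (x : Fin r → G)
    (N' : Matrix (Fin r) (Fin D') ℤ) :
    lam hr N x N' = ∑ i, (S2_mat hr N (Pi.single i 1) N').det • x i := by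
  unfold lam S2_mat
  refine Finset.sum_congr rfl fun i _ => ?_
  congr 2
  ext a b
  simp only [Matrix.of_apply, Pi.single_apply]

/-- the index set of the columns -/
def S2_e (hr : r = D + 1 + (t + D')) : (Fin (D + 1) ⊕ Fin D') ⊕ Fin t ≃ Fin r :=
  (Equiv.sumAssoc _ _ _).trans (((Equiv.refl _).sumCongr (Equiv.sumComm _ _)).trans
    (((Equiv.refl _).sumCongr finSumFinEquiv).trans (finSumFinEquiv.trans (finCongr hr.symm))))

/-- the index set of the columns -/
def S2_es (hs : s = D + 1 + D') : Fin (D + 1) ⊕ Fin D' ≃ Fin s :=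
  finSumFinEquiv.trans (finCongr hs.symm)

theorem S2_mat_s (hs : s = D + 1 + D') (N : Matrix (Fin s) (Fin D) ℤ) (x : Fin s → ℤ)
    (N' : Matrix (Fin s) (Fin D') ℤ) :
    S2_mat hs N x N' = (Matrix.fromCols (Matrix.of fun a => Fin.snoc (N a) (x a)) N').submatrix id
      (S2_es hs).symm := by
  ext a b
  obtain ⟨q, rfl⟩ := (S2_es hs).surjective b
  rw [Matrix.submatrix_apply, Equiv.symm_apply_apply]
  rcases q with u | v
  · have : Fin.cast hs (S2_es hs (Sum.inl u)) = Fin.castAdd D' u := by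
      ext; simp [S2_es]
    simp only [S2_mat, Matrix.of_apply, this, Fin.append_left]
    rfl
  · have : Fin.cast hs (S2_es hs (Sum.inr v)) = Fin.natAdd (D + 1) v := by
      ext; simp [S2_es]
    simp only [S2_mat, Matrix.of_apply, this, Fin.append_right]
    rfl

theorem S2_mat_r (hr : r = D + 1 + (t + D')) (N : Matrix (Fin r) (Fin D) ℤ) (x : Fin r → ℤ)
    (C : Matrix (Fin r) (Fin t) ℤ) (N' : Matrix (Fin r) (Fin D') ℤ) :
    S2_mat hr N x (Matrix.of fun i => Fin.append (C i) (N' i)) =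
      (Matrix.fromCols (Matrix.fromCols (Matrix.of fun a => Fin.snoc (N a) (x a)) N') C).submatrix
        id (S2_e hr).symm := by
  ext a b
  obtain ⟨q, rfl⟩ := (S2_e hr).surjective b
  rw [Matrix.submatrix_apply, Equiv.symm_apply_apply]
  rcases q with (u | v) | w
  · have : Fin.cast hr (S2_e hr (Sum.inl (Sum.inl u))) = Fin.castAdd (t + D') u := by
      ext; simp [S2_e]
    simp only [S2_mat, Matrix.of_apply, this, Fin.append_left]
    rfl
  · have : Fin.cast hr (S2_e hr (Sum.inl (Sum.inr v))) = Fin.natAdd (D + 1) (Fin.natAdd t v) := by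
      ext; simp [S2_e]
    simp only [S2_mat, Matrix.of_apply, this, Fin.append_right]
    rfl
  · have : Fin.cast hr (S2_e hr (Sum.inr w)) = Fin.natAdd (D + 1) (Fin.castAdd D' w) := by
      ext; simp [S2_e]
    simp only [S2_mat, Matrix.of_apply, this, Fin.append_right, Fin.append_left]
    rfl

theorem S2_mul_snoc (A : Matrix (Fin s) (Fin r) ℤ) (N : Matrix (Fin r) (Fin D) ℤ)
    (x : Fin r → ℤ) :
    A * (Matrix.of fun a => Fin.snoc (N a) (x a) : Matrix (Fin r) (Fin (D + 1)) ℤ) =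
      Matrix.of fun b => Fin.snoc ((A * N) b) (A.mulVec x b) := by
  ext b u
  rw [Matrix.mul_apply]
  refine Fin.lastCases ?_ (fun v => ?_) u
  · simp [Matrix.mulVec, dotProduct]
  · simp [Matrix.mul_apply]

/-- linearity in the column `x` -/
theorem S2_linear (hs : s = D + 1 + D') (N : Matrix (Fin s) (Fin D) ℤ) (x : Fin s → ℤ)
    (N' : Matrix (Fin s) (Fin D') ℤ) :
    (S2_mat hs N x N').det = ∑ k, x k * (S2_mat hs N (Pi.single k 1) N').det := by
  set M₀ := S2_mat hs N 0 N' with hM₀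
  set c : Fin s := Fin.cast hs.symm (Fin.castAdd D' (Fin.last D)) with hc
  have key : ∀ y : Fin s → ℤ, S2_mat hs N y N' = M₀.updateCol c y := by
    intro y
    ext a b
    rw [Matrix.updateCol_apply]
    obtain ⟨b', rfl⟩ : ∃ b' : Fin (D + 1 + D'), b = Fin.cast hs.symm b' :=
      ⟨Fin.cast hs b, by simp⟩
    simp only [hM₀, S2_mat, Matrix.of_apply, Fin.cast_cast, Fin.cast_eq_self]
    refine Fin.addCases (fun u => ?_) (fun v => ?_) b'
    · refine Fin.lastCases ?_ (fun w => ?_) u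
      · simp [hc]
      · have : ¬ (Fin.cast hs.symm (Fin.castAdd D' (Fin.castSucc w)) = c) := by
          rw [hc, Fin.ext_iff]
          have := w.2
          simp
          omega
        rw [if_neg this]
        simp
    · have : ¬ (Fin.cast hs.symm (Fin.natAdd (D + 1) v) = c) := by
        rw [hc, Fin.ext_iff]
        simp
        omega
      rw [if_neg this]
      simp
  have h2 : ∀ y : Fin s → ℤ, (S2_mat hs N y N').det = Matrix.cramer M₀ y c := by
    intro y
    rw [key, Matrix.cramer_apply]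
  rw [h2]
  have h3 : x = ∑ k, x k • (Pi.single k 1 : Fin s → ℤ) := by
    funext l
    simp [Finset.sum_apply, Pi.single_apply]
  conv_lhs => rw [h3]
  rw [map_sum, Finset.sum_apply]
  refine Finset.sum_congr rfl fun k _ => ?_
  rw [map_smul, Pi.smul_apply, smul_eq_mul, h2]

/-- S2, for one term -/
theorem S2_term (hr : r = D + 1 + (t + D')) (hs : s = D + 1 + D')
    {A : Matrix (Fin s) (Fin r) ℤ} {A' : Matrix (Fin r) (Fin s) ℤ} {C : Matrix (Fin r) (Fin t) ℤ}
    {C' : Matrix (Fin t) (Fin r) ℤ} (h1 : A * A' = 1) (h2 : A * C = 0) (h3 : C' * C = 1) :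
    ∃ ε : ℤ, (ε = 1 ∨ ε = -1) ∧ ∀ (N : Matrix (Fin r) (Fin D) ℤ) (x : Fin r → G)
      (N' : Matrix (Fin s) (Fin D') ℤ),
      lam hr N x (Matrix.of fun i => Fin.append (C i) ((A' * N') i)) =
        ε • lam hs (A * N) (fun i => ∑ j, A i j • x j) N' := by
  obtain ⟨ε, hε, H⟩ := S2_sign (D := D) (D' := D') (hrs := by omega) h1 h2 h3 (S2_e hr) (S2_es hs)
  refine ⟨ε, hε, fun N x N' => ?_⟩
  rw [S2_lam, S2_lam]
  have h4 : ∀ i, (S2_mat hr N (Pi.single i 1) (Matrix.of fun i => Fin.append (C i) ((A' * N') i))).det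
      = ε * ∑ k, A k i * (S2_mat hs (A * N) (Pi.single k 1) N').det := by
    intro i
    rw [S2_mat_r, H, S2_mul_snoc, ← S2_mat_s, S2_linear]
    congr 1
    refine Finset.sum_congr rfl fun k _ => ?_
    rw [Matrix.mulVec_single_one]
    rfl
  simp only [h4, Finset.smul_sum, mul_smul, Finset.mul_sum, Finset.sum_smul]
  rw [Finset.sum_comm]
  refine Finset.sum_congr rfl fun k _ => Finset.sum_congr rfl fun i _ => ?_
  rw [smul_comm (A k i)]

theorem S2_even {h : G → ℝ} (hh : ∀ P Q : G, h (P + Q) + h (P - Q) = 2 * h P + 2 * h Q) (P : G) :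
    h (-P) = h P := by
  have h0 : h 0 = 0 := by
    have := hh 0 0
    simp only [add_zero, sub_zero] at this
    linarith
  have := hh 0 P
  rw [zero_add, zero_sub, h0] at this
  linarith

/-- S2: the projection formula -/
theorem pair_proj (hr : r = D + 1 + (t + D')) (hs : s = D + 1 + D') {h : G → ℝ}
    (hh : ∀ P Q : G, h (P + Q) + h (P - Q) = 2 * h P + 2 * h Q)
    {A : Matrix (Fin s) (Fin r) ℤ} {A' : Matrix (Fin r) (Fin s) ℤ} {C : Matrix (Fin r) (Fin t) ℤ}
    {C' : Matrix (Fin t) (Fin r) ℤ} (h1 : A * A' = 1) (h2 : A * C = 0) (h3 : C' * C = 1)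
    (c : Fc r D G) (c' : Fc s D' G) :
    pair hr h c (pull A' C c') = pair hs h (push A c) c' := by
  obtain ⟨ε, hε, H⟩ := S2_term (G := G) hr hs h1 h2 h3
  have hAA : ∀ (y : Fin s → G) (i : Fin s), ∑ j, A i j • (∑ k, A' j k • y k) = y i := by
    intro y i
    simp only [Finset.smul_sum, ← mul_smul]
    rw [Finset.sum_comm]
    have : ∀ k, ∑ j, (A i j * A' j k) • y k = (if i = k then (1 : ℤ) else 0) • y k := by
      intro k
      rw [← Finset.sum_smul, ← Matrix.mul_apply, h1, Matrix.one_apply]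
    simp only [this, ite_smul, one_smul, zero_smul]
    simp
  have key : ∀ (p : Matrix (Fin r) (Fin D) ℤ × (Fin r → G))
      (p' : Matrix (Fin s) (Fin D') ℤ × (Fin s → G)),
      h (lam hr p.1 (p.2 - fun i => ∑ j, A' i j • p'.2 j)
        (Matrix.of fun i => Fin.append (C i) ((A' * p'.1) i))) =
      h (lam hs (A * p.1) ((fun i => ∑ j, A i j • p.2 j) - p'.2) p'.1) := by
    intro p p'
    rw [H]
    have e1 : (fun i => ∑ j, A i j • (p.2 - fun i => ∑ j, A' i j • p'.2 j) j) =
        (fun i => ∑ j, A i j • p.2 j) - p'.2 := by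
      funext i
      simp only [Pi.sub_apply, smul_sub, Finset.sum_sub_distrib]
      rw [hAA]
    rw [e1]
    rcases hε with h | h
    · rw [h, one_smul]
    · rw [h, neg_smul, one_smul, S2_even hh]
  unfold pair pull push
  rw [Finsupp.sum_mapDomain_index]
  · congr 1
    refine Finsupp.sum_congr fun p _ => ?_
    rw [Finsupp.sum_mapDomain_index]
    · refine Finsupp.sum_congr fun p' _ => ?_
      rw [key]
    · intro b
      simp
    · intro b m₁ m₂
      push_cast
      ring
  · intro b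
    simp
  · intro b m₁ m₂
    rw [← Finsupp.sum_add]
    refine Finsupp.sum_congr fun p' _ => ?_
    push_cast
    ring

end Pool.Agent.LibRG11
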