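import Pool.Agent.LibRG11.Defs
import Pool.Agent.LibHR84.Lin

/-!
The inverse image of a homologically trivial combination is homologically trivial.
-/

open scoped Classical

namespace Pool.Agent.LibRG11

variable {G : Type} [AddCommGroup G] {r s t D : ℕ}

/-- the two blocks of columns, in the reversed order -/
def blk (t D : ℕ) : Fin (t + D) ≃ Fin D ⊕ Fin t :=
  finSumFinEquiv.symm.trans (Equiv.sumComm _ _)

theorem append_dt {r : ℕ} (e : Fin r ≃ Fin D ⊕ Fin t) (hr : r = t + D)
    (he : ∀ b, e b = blk t D (Fin.cast hr b)) (Y : Matrix (Fin r) (Fin t) ℤ)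
    (N : Matrix (Fin r) (Fin D) ℤ) :
    (Matrix.of fun i b => Fin.append (Y i) (N i) (Fin.cast hr b)).det = LibHR84.dt e N Y := by
  subst hr
  unfold LibHR84.dt
  congr 1
  ext i b
  rw [Matrix.of_apply, Matrix.submatrix_apply, he]
  refine Fin.addCases (fun b => ?_) (fun b => ?_) b
  · simp [blk]
  · simp [blk]

theorem mul_append (M : Matrix (Fin r) (Fin (t + D)) ℤ) (C : Matrix (Fin r) (Fin t) ℤ)
    (N : Matrix (Fin r) (Fin D) ℤ) :
    M.transpose * Matrix.of (fun i => Fin.append (C i) (N i)) =
      Matrix.of fun i b => Fin.append ((M.transpose * C) i) ((M.transpose * N) i) b := by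
  ext i b
  rw [Matrix.mul_apply, Matrix.of_apply]
  refine Fin.addCases (fun b => ?_) (fun b => ?_) b
  · rw [Fin.append_left, Matrix.mul_apply]
    exact Finset.sum_congr rfl fun k _ => by rw [Matrix.of_apply, Fin.append_left]
  · rw [Fin.append_right, Matrix.mul_apply]
    exact Finset.sum_congr rfl fun k _ => by rw [Matrix.of_apply, Fin.append_right]

/-- S3: the inverse image of a homologically trivial combination -/
theorem hom0_pull (A' : Matrix (Fin r) (Fin s) ℤ) (C : Matrix (Fin r) (Fin t) ℤ) {c : Fc s D G}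
    (hc : Hom0 c) : Hom0 (pull A' C c) := by
  intro M
  unfold pull
  rw [Finsupp.sum_mapDomain_index (fun _ => zero_mul _) (fun _ _ _ => add_mul _ _ _)]
  simp only []
  let Y : Matrix (Fin (t + D)) (Fin t) ℤ := M.transpose * C
  let P : Matrix (Fin (t + D)) (Fin s) ℤ := M.transpose * A'
  have h1 : ∀ N : Matrix (Fin s) (Fin D) ℤ,
      (M.transpose * Matrix.of (fun i => Fin.append (C i) ((A' * N) i))).det =
        LibHR84.dt (blk t D) (P * N) Y := by
    intro N
    rw [mul_append, ← append_dt (blk t D) rfl (fun b => rfl) Y (P * N)]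
    simp only [P, Y, Matrix.mul_assoc, Fin.cast_eq_self]
  simp only [h1]
  by_cases hY : (Y.transpose * Y).det = 0
  · refine Finset.sum_eq_zero fun p _ => ?_
    simp only []
    rw [LibHR84.dt_zero _ _ hY, zero_pow two_ne_zero, mul_zero]
  · obtain ⟨Q, hQ1, hQ2⟩ := LibHR84.exists_comp (blk t D) Y
    have h2 := LibHR84.dt_sq_ne (blk t D) hQ1 hQ2 hY
    have h3 : ∀ N : Matrix (Fin s) (Fin D) ℤ, LibHR84.dt (blk t D) Q Y *
        LibHR84.dt (blk t D) (P * N) Y =
          ((P.transpose * Q).transpose * N).det * (Y.transpose * Y).det := by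
      intro N
      have h6 : (P.transpose * Q).transpose * N = Q.transpose * (P * N) := by
        rw [Matrix.transpose_mul P.transpose Q, Matrix.transpose_transpose, Matrix.mul_assoc]
      rw [LibHR84.dt_mul _ _ _ hQ1, h6]
    have h4 := hc (P.transpose * Q)
    have h5 : LibHR84.dt (blk t D) Q Y ^ 2 *
        (c.sum fun p m => m * LibHR84.dt (blk t D) (P * p.1) Y ^ 2) =
          (Y.transpose * Y).det ^ 2 *
            c.sum fun p m => m * ((P.transpose * Q).transpose * p.1).det ^ 2 := by
      rw [Finsupp.mul_sum, Finsupp.mul_sum]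
      refine Finset.sum_congr rfl fun p _ => ?_
      simp only []
      calc _ = c p * (LibHR84.dt (blk t D) Q Y * LibHR84.dt (blk t D) (P * p.1) Y) ^ 2 := by ring
        _ = _ := by rw [h3]; ring
    rw [h4, mul_zero] at h5
    exact (mul_eq_zero.1 h5).resolve_left (pow_ne_zero 2 h2)

end Pool.Agent.LibRG11
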