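import Pool.Agent.LibRG11.AJ
import Pool.Agent.LibHR84.Main
import Pool.Agent.LibMul34.Fin

/-!
The pairing and combinations whose Abel-Jacobi image is torsion.
-/

open scoped Classical

namespace Pool.Agent.LibRG11

variable {G : Type} [AddCommGroup G] {r D D' : ℕ}

/-- the index types -/
def eR (hr : r = D + 1 + D') : Fin r ≃ (Fin D ⊕ Unit) ⊕ Fin D' :=
  (finCongr hr).trans (finSumFinEquiv.symm.trans
    (Equiv.sumCongr (LibMul34.ix D).symm (Equiv.refl (Fin D'))))

theorem lam_eq (hr : r = D + 1 + D') (N : Matrix (Fin r) (Fin D) ℤ) (x : Fin r → G)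
    (N' : Matrix (Fin r) (Fin D') ℤ) : lam hr N x N' = LibHR84.lam (eR hr) N x N' := by
  unfold lam LibHR84.lam
  refine Finset.sum_congr rfl fun i _ => ?_
  congr 1
  unfold LibHR84.jn LibHR84.dt
  congr 1
  ext a b
  rw [Matrix.of_apply, Matrix.submatrix_apply, id_eq]
  obtain ⟨b, rfl⟩ : ∃ b', b = Fin.cast hr.symm b' := ⟨Fin.cast hr b, by simp⟩
  have h1 : eR hr (Fin.cast hr.symm b) = Sum.map (LibMul34.ix D).symm id
    (finSumFinEquiv.symm b) := rfl
  rw [h1, Fin.cast_cast, Fin.cast_eq_self]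
  refine Fin.addCases (fun c => ?_) (fun c => ?_) b
  · rw [Fin.append_left, finSumFinEquiv_symm_apply_castAdd, Sum.map_inl]
    obtain ⟨j, rfl⟩ := (LibMul34.ix D).surjective c
    rw [Equiv.symm_apply_apply]
    rcases j with j | ⟨⟩
    · rw [LibMul34.ix_inl, Fin.snoc_castSucc]
      rfl
    · rw [LibMul34.ix_inr, Fin.snoc_last]
      show _ = (Pi.single i 1 : Fin r → ℤ) a
      rw [Pi.single_apply]
  · rw [Fin.append_right, finSumFinEquiv_symm_apply_natAdd, Sum.map_inr]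
    rfl

theorem pair_eq (hr : r = D + 1 + D') (h : G → ℝ) (c : Fc r D G) (c' : Fc r D' G) :
    pair hr h c c' = LibHR84.pr h (eR hr) c c' := by
  unfold pair LibHR84.pr
  simp only [lam_eq]
  ring

theorem AJ_eq (c : Fc r D G) (M : Matrix (Fin r) (Fin D) ℤ) (z : Fin r → ℤ) :
    AJ c M z = LibHR84.tk (fun p => LibCV66.kf p (M, z)) c := by
  rw [LibHR84.tk_apply]
  unfold AJ Finsupp.sum
  refine Finset.sum_congr rfl fun p _ => ?_
  beta_reduce
  rw [mul_smul]
  congr 1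
  unfold bdG
  rw [Finset.smul_sum]
  refine Finset.sum_congr rfl fun i _ => ?_
  rw [smul_smul]
  rfl

theorem AJ_iff (c : Fc r D G) : (∀ M z, IsOfFinAddOrder (AJ c M z)) ↔ LibHR84.AJ c := by
  constructor
  · rintro h ⟨M, z⟩
    rw [← AJ_eq]
    exact h M z
  · intro h M z
    rw [AJ_eq]
    exact h (M, z)

/-- S4: (A2) -/
theorem pair_eq_zero (hr : r = D + 1 + D') {h : G → ℝ}
    (hh : ∀ P Q : G, h (P + Q) + h (P - Q) = 2 * h P + 2 * h Q) {c : Fc r D G} {c' : Fc r D' G}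
    (hc : Hom0 c) (hc' : Hom0 c') (haj : ∀ M z, IsOfFinAddOrder (AJ c M z)) :
    pair hr h c c' = 0 := by
  rw [pair_eq]
  exact LibHR84.pr_zero hh (eR hr) hc ((AJ_iff c).1 haj) hc'

end Pool.Agent.LibRG11
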