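import Pool.Agent.LibRG11.Uniq
import Pool.Agent.LibRG11.Ht
import Pool.Agent.LibRG11.S1
import Pool.Agent.LibRG11.S2
import Pool.Agent.LibRG11.S3
import Pool.Agent.LibRG11.S4

/-!
Existence of the height pairing.
-/

open WeierstrassCurve Pool.Agent.LibBH2 Pool.Agent.LibIG50 Pool.Agent.LibCHd Pool.Agent.LibGG
  Pool.Agent.LibAC34 Pool.Agent.LibAF11
open scoped Classical

namespace Pool.Agent.LibRG11

section comb
variable {G : Type} [AddCommGroup G] {r s t D D' : ℕ}

theorem hom0_push {c : Fc r D G} (hc : Hom0 c) (A : Matrix (Fin s) (Fin r) ℤ) :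
    Hom0 (push A c) := by
  intro M
  unfold push
  rw [Finsupp.sum_mapDomain_index (fun _ => zero_mul _) (fun _ _ _ => add_mul _ _ _),
    ← hc (A.transpose * M)]
  refine Finsupp.sum_congr fun p _ => ?_
  rw [Matrix.transpose_mul, Matrix.transpose_transpose, Matrix.mul_assoc]

theorem pair_add (hr : r = D + 1 + D') (h : G → ℝ) (c₁ c₂ : Fc r D G) (c' : Fc r D' G) :
    pair hr h (c₁ + c₂) c' = pair hr h c₁ c' + pair hr h c₂ c' := by
  unfold pair
  rw [← mul_add]
  congr 1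
  refine Finsupp.sum_add_index' (fun p => ?_) fun p m₁ m₂ => ?_
  · unfold Finsupp.sum
    refine Finset.sum_eq_zero fun p' _ => ?_
    beta_reduce
    rw [Int.cast_zero, zero_mul, zero_mul]
  · rw [← Finsupp.sum_add]
    refine Finsupp.sum_congr fun p' _ => ?_
    push_cast
    ring

theorem lam_one (X Y : Matrix (Fin 1) (Fin 0) ℤ) (x : Fin 1 → G) :
    lam (r := 1) (D := 0) (D' := 0) rfl X x Y = x 0 := by
  unfold lam
  rw [Fin.sum_univ_one]
  have h1 : (Matrix.of fun a b => Fin.append (Fin.snoc (X a) (if a = 0 then 1 else 0) :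
      Fin (0 + 1) → ℤ) (Y a) (Fin.cast (rfl : 1 = 0 + 1 + 0) b) : Matrix (Fin 1) (Fin 1) ℤ) = 1 := by
    ext a b
    have ha : a = 0 := Subsingleton.elim _ _
    have hb : b = 0 := Subsingleton.elim _ _
    subst ha hb
    rfl
  rw [h1, Matrix.det_one, one_smul]

theorem pair_sub_left (hr : r = D + 1 + D') (h : G → ℝ) (c₁ c₂ : Fc r D G) (c' : Fc r D' G) :
    pair hr h (c₁ - c₂) c' = pair hr h c₁ c' - pair hr h c₂ c' := by
  have h1 := pair_add hr h (c₁ - c₂) c₂ c'
  rw [sub_add_cancel] at h1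
  rw [h1]
  ring

theorem pair_single (hr : r = D + 1 + D') (h : G → ℝ) (N : Matrix (Fin r) (Fin D) ℤ)
    (g : Fin r → G) (N' : Matrix (Fin r) (Fin D') ℤ) (g' : Fin r → G) :
    pair hr h (Finsupp.single (N, g) 1) (Finsupp.single (N', g') 1) =
      -(1 / 2) * h (lam hr N (g - g') N') := by
  unfold pair
  rw [Finsupp.sum_single_index, Finsupp.sum_single_index]
  · push_cast
    ring
  · rw [Int.cast_zero, mul_zero, zero_mul]
  · unfold Finsupp.sum
    refine Finset.sum_eq_zero fun p' _ => ?_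
    beta_reduce
    rw [Int.cast_zero, zero_mul, zero_mul]

theorem pair_sub_right (hr : r = D + 1 + D') (h : G → ℝ) (c : Fc r D G) (c₁ c₂ : Fc r D' G) :
    pair hr h c (c₁ - c₂) = pair hr h c c₁ - pair hr h c c₂ := by
  unfold pair
  rw [← mul_sub]
  congr 1
  rw [← Finsupp.sum_sub]
  refine Finsupp.sum_congr fun p _ => ?_
  rw [Finsupp.sum_sub_index]
  intro p' a b
  push_cast
  ring

theorem pair_df {h : G → ℝ} (hh : ∀ P Q : G, h (P + Q) + h (P - Q) = 2 * h P + 2 * h Q)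
    (P Q : G) : pair (r := 1) (D := 0) (D' := 0) rfl h (df P) (df Q) =
      (h (P + Q) - h P - h Q) / 2 := by
  unfold df
  rw [pair_sub_left, pair_sub_right, pair_sub_right, pair_single, pair_single, pair_single,
    pair_single, lam_one, lam_one, lam_one, lam_one]
  simp only [Pi.sub_apply, sub_zero, zero_sub]
  have h1 := hh P Q
  have h2 := hh 0 0
  have h3 : h (-Q) = h Q := h_neg hh Q
  rw [h3]
  rw [add_zero, sub_zero] at h2
  linarith

end comb

variable {K : Type} [Field K] [Algebra K Qb] {E : WeierstrassCurve K}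
  {F : ℕ → Type} [∀ D, Field (F D)] [∀ D, Algebra Qb (F D)]
  {ξ : ∀ D, Fin D → ((E⁄Qb)⁄(F D)).toAffine.Point} {h : E.toAffine.Point → ℝ}
  {B : ∀ r D D' : ℕ, Fc r D E.toAffine.Point → Fc r D' E.toAffine.Point → ℝ}

theorem isHt_of [(E⁄Qb).IsElliptic]
    (hξ : ∀ D, IsGen 0 (Algebra.ofId Qb (F D)) (fun _ : Fin D => E⁄Qb) (ξ D))
    (hh : ∀ P Q, h (P + Q) + h (P - Q) = 2 * h P + 2 * h Q)
    (hB : ∀ (r D D' : ℕ) (hr : r = D + 1 + D') (c : Fc r D E.toAffine.Point)
      (c' : Fc r D' E.toAffine.Point), Hom0 c → Hom0 c' → B r D D' c c' = pair hr h c c') :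
    IsHt E ξ h B where
  add r D D' hr c₁ c₂ c' h₁ h₂ h' := by
    rw [hB r D D' hr _ _ ((HomG r D _).add_mem h₁ h₂) h', hB r D D' hr _ _ h₁ h',
      hB r D D' hr _ _ h₂ h', pair_add]
  comm r D D' hr c c' hc hc' := by
    have hr' : r = D' + 1 + D := by omega
    rw [hB r D D' hr _ _ hc hc', hB r D' D hr' _ _ hc' hc, pair_comm hr hr' hh]
  tors r D D' hr c c' hc hc' ht := by
    rw [hB r D D' hr _ _ hc hc']
    exact pair_eq_zero hr hh hc hc' (aj_of_tors (hξ D) ht)
  proj r s t D D' hr hs A A' C C' h1 h2 h3 c c' hc hc' := by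
    have hr' : r = D + 1 + (t + D') := by omega
    rw [hB r D (t + D') hr' _ _ hc (hom0_pull A' C hc'), hB s D D' hs _ _ (hom0_push hc A) hc',
      pair_proj hr' hs hh h1 h2 h3]
  nrm P Q := by
    rw [hB 1 0 0 rfl (df P) (df Q) (dl_hom0 _ _) (dl_hom0 _ _), pair_df hh]

/-- **The height pairing is given by the formula.** -/
theorem isHt_iff [(E⁄Qb).IsElliptic]
    (hξ : ∀ D, IsGen 0 (Algebra.ofId Qb (F D)) (fun _ : Fin D => E⁄Qb) (ξ D))
    (hh : ∀ P Q, h (P + Q) + h (P - Q) = 2 * h P + 2 * h Q) :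
    IsHt E ξ h B ↔ ∀ (r D D' : ℕ) (hr : r = D + 1 + D') (c : Fc r D E.toAffine.Point)
      (c' : Fc r D' E.toAffine.Point), Hom0 c → Hom0 c' → B r D D' c c' = pair hr h c c' := by
  constructor
  · intro hB r D D' hr c c' hc hc'
    have h1 : IsHt E ξ h (fun r D D' c c' =>
        if hr : r = D + 1 + D' then pair hr h c c' else 0) :=
      isHt_of hξ hh fun r D D' hr c c' _ _ => dif_pos hr
    rw [hB.unique h1 hξ hr hc hc']
    exact dif_pos hr
  · exact isHt_of hξ hh

end Pool.Agent.LibRG11
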