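import Pool.Agent.LibRG11.Final
import Pool.Agent.LibAF11.Exist

/-!
Elliptic curves over number fields with groups of points of high rank to which the theorem on the height
pairing applies.
-/

open WeierstrassCurve Pool.Agent.LibBH2 Pool.Agent.LibIG50 Pool.Agent.LibCHd Pool.Agent.LibGG
  Pool.Agent.LibAC34 Pool.Agent.LibAF11
open scoped Classical

namespace Pool.Agent.LibRG11

/-- the coordinates of a point -/
noncomputable def coo {W : WeierstrassCurve Qb} : W.toAffine.Point → Finset Qb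
  | .zero => ∅
  | .some x y _ => {x, y}

theorem exists_pt {L : Type} [Field L] [Algebra L Qb] (E : WeierstrassCurve L)
    (R : (E⁄Qb).toAffine.Point) (hR : ∀ z ∈ coo R, ∃ w : L, algebraMap L Qb w = z) :
    ∃ P : E.toAffine.Point, constPt Qb P = R := by
  match R, hR with
  | .zero, _ => exact ⟨.zero, rfl⟩
  | .some x y h, hR =>
    obtain ⟨x', rfl⟩ := hR x (by simp [coo])
    obtain ⟨y', rfl⟩ := hR y (by simp [coo])
    exact ⟨.some x' y' ((Affine.map_nonsingular E (algebraMap L Qb).injective x' y').1 h), rfl⟩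

theorem high_aux {L : Type} [Field L] [Algebra L Qb] (E : WeierstrassCurve L)
    [E.IsElliptic] {Γ : Grid} (hΓ : LibAC34.Pw Γ) {n : ℕ} (Q : Fin n → (E⁄Qb).toAffine.Point)
    (hQ : ∀ i, Q i ∈ Γ (E⁄Qb)) (hli : LinearIndependent ℤ Q)
    (hco : ∀ i, ∀ z ∈ coo (Q i), ∃ w : L, algebraMap L Qb w = z) :
    ∃ (G : AddSubgroup E.toAffine.Point) (R : Fin n → E.toAffine.Point), Self E G ∧ Base G R := by
  have hE : (E⁄Qb).IsElliptic := inferInstanceAs (E.map (algebraMap L Qb)).IsElliptic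
  choose R hR using fun i => exists_pt E (Q i) (hco i)
  refine ⟨AddSubgroup.closure (Set.range R), R, self_of_pw hΓ fun P hP => ?_, fun i =>
    AddSubgroup.subset_closure ⟨i, rfl⟩, ?_, fun P hP => ⟨1, one_ne_zero, by rwa [one_smul]⟩⟩
  · have h1 : AddSubgroup.closure (Set.range R) ≤ (Γ (E⁄Qb)).comap (cHom E) := by
      rw [AddSubgroup.closure_le]
      rintro _ ⟨i, rfl⟩
      change constPt Qb (R i) ∈ Γ (E⁄Qb)
      rw [hR i]
      exact hQ i
    exact h1 hP
  · refine LinearIndependent.of_comp (cHom E).toIntLinearMap ?_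
    have h2 : ((cHom E).toIntLinearMap ∘ R) = Q := funext hR
    rw [h2]
    exact hli

/-- R9: high rank -/
theorem high_rank (K : Type) [Field K] [NumberField K] [Algebra K Qb] (E₀ : WeierstrassCurve K)
    [E₀.IsElliptic] (T : E₀.toAffine.Point) (hT : T ≠ 0) (hT' : 2 • T = 0) (n : ℕ) :
    ∃ (L : Type) (_ : Field L) (_ : NumberField L) (_ : Algebra L Qb) (E : WeierstrassCurve L)
      (_ : E.IsElliptic) (G : AddSubgroup E.toAffine.Point) (R : Fin n → E.toAffine.Point),
      E⁄Qb = E₀⁄Qb ∧ Self E G ∧ Base G R := by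
  have hE₀ : (E₀⁄Qb).IsElliptic := inferInstanceAs (E₀.map (algebraMap K Qb)).IsElliptic
  obtain ⟨Γ, h1, -, h2, -⟩ := LibAF11.exist K E₀ T 0 hT hT'
  obtain ⟨⟨Q, hQ⟩, -⟩ := h2 (E₀⁄Qb) hE₀
  let s : Finset Qb := (Finset.range n).biUnion fun i => coo (Q i).1
  have hgal := isGalois_Qb K
  let L : IntermediateField K Qb := IntermediateField.adjoin K (s : Set Qb)
  have hfd : FiniteDimensional K L := by
    refine IntermediateField.finiteDimensional_adjoin fun x _ => ?_
    exact Algebra.IsIntegral.isIntegral x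
  have hnf : NumberField L := NumberField.of_module_finite K L
  let E : WeierstrassCurve L := E₀⁄L
  have hE : E.IsElliptic := inferInstanceAs (E₀.map (algebraMap K L)).IsElliptic
  have hEE : E⁄Qb = E₀⁄Qb := rfl
  have key : ∀ W : WeierstrassCurve Qb, W = E₀⁄Qb → ∃ Q : Fin n → W.toAffine.Point,
      (∀ i, Q i ∈ Γ W) ∧ LinearIndependent ℤ Q ∧ ∀ i, ∀ z ∈ coo (Q i), z ∈ s := by
    rintro _ rfl
    refine ⟨fun i => (Q i).1, fun i => (Q i).2, ?_, fun i z hz => ?_⟩
    · have h3 := hQ.comp (fun i : Fin n => (i : ℕ)) Fin.val_injective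
      exact h3.map' (Γ (E₀⁄Qb)).toIntSubmodule.subtype (Submodule.ker_subtype _)
    · exact Finset.mem_biUnion.2 ⟨i, Finset.mem_range.2 i.2, hz⟩
  obtain ⟨Q', h3, h4, h5⟩ := key (E⁄Qb) hEE
  obtain ⟨G, R, h6, h7⟩ := high_aux E (pw_of_pwC h1) Q' h3 h4 fun i z hz =>
    ⟨⟨z, IntermediateField.subset_adjoin K _ (h5 i z hz)⟩, rfl⟩
  exact ⟨L, inferInstance, hnf, inferInstance, E, hE, G, R, hEE, h6, h7⟩

end Pool.Agent.LibRG11
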