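import Mathlib

/-!
S8: a splitting of `ℤ ^ r` adapted to a matrix of full column rank.
-/

open scoped Classical

namespace Pool.Agent.LibRG11

variable {r s t : ℕ}

/-- a basis adapted to a subgroup gives the splitting -/
theorem S8_basis (N : Matrix (Fin r) (Fin t) ℤ) (B : Module.Basis (Fin t ⊕ Fin s) ℤ (Fin r → ℤ))
    (hB : ∀ (j : Fin t) (k : Fin s), B.repr (fun i => N i j) (Sum.inr k) = 0)
    (hN : (N.transpose * N).det ≠ 0) :
    ∃ (A : Matrix (Fin s) (Fin r) ℤ) (A' : Matrix (Fin r) (Fin s) ℤ)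
      (C : Matrix (Fin r) (Fin t) ℤ) (C' : Matrix (Fin t) (Fin r) ℤ)
      (T : Matrix (Fin t) (Fin t) ℤ), A * A' = 1 ∧ A * C = 0 ∧ C' * C = 1 ∧ C' * A' = 0 ∧
        A' * A + C * C' = 1 ∧ N = C * T ∧ T.det ≠ 0 := by
  set b := Pi.basisFun ℤ (Fin r) with hb
  set P : Matrix (Fin r) (Fin t ⊕ Fin s) ℤ := b.toMatrix B with hP
  set Q : Matrix (Fin t ⊕ Fin s) (Fin r) ℤ := B.toMatrix b with hQ
  have hPQ : P * Q = 1 := b.toMatrix_mul_toMatrix_flip B
  have hQP : Q * P = 1 := B.toMatrix_mul_toMatrix_flip b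
  have hP' : P = Matrix.fromCols P.toCols₁ P.toCols₂ := (Matrix.fromCols_toCols P).symm
  have hQ' : Q = Matrix.fromRows Q.toRows₁ Q.toRows₂ := (Matrix.fromRows_toRows Q).symm
  rw [hP', hQ'] at hPQ hQP
  rw [Matrix.fromRows_mul_fromCols, ← Matrix.fromBlocks_one, Matrix.fromBlocks_inj] at hQP
  rw [Matrix.fromCols_mul_fromRows] at hPQ
  obtain ⟨h1, h2, h3, h4⟩ := hQP
  have hAN : Q.toRows₂ * N = 0 := by
    ext k j
    have h := hB j k
    have e1 : (fun i => N i j) = ∑ i, N i j • b i := by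
      funext l
      simp [hb, Finset.sum_apply, Pi.single_apply]
    rw [e1, map_sum, Finsupp.finsetSum_apply] at h
    rw [Matrix.mul_apply, Matrix.zero_apply, ← h]
    refine Finset.sum_congr rfl fun i _ => ?_
    rw [map_smul, Finsupp.smul_apply, smul_eq_mul, mul_comm]
    rfl
  have hNN : N = P.toCols₁ * (Q.toRows₁ * N) := by
    calc N = (P.toCols₁ * Q.toRows₁ + P.toCols₂ * Q.toRows₂) * N := by rw [hPQ, Matrix.one_mul]
      _ = P.toCols₁ * (Q.toRows₁ * N) := by
        rw [Matrix.add_mul, Matrix.mul_assoc, Matrix.mul_assoc, hAN, Matrix.mul_zero, add_zero]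
  refine ⟨Q.toRows₂, P.toCols₂, P.toCols₁, Q.toRows₁, Q.toRows₁ * N, h4, h3, h1, h2, ?_, hNN, ?_⟩
  · rw [add_comm]
    exact hPQ
  · intro hT
    apply hN
    rw [hNN, Matrix.transpose_mul, Matrix.mul_assoc, Matrix.det_mul, Matrix.det_transpose, hT,
      zero_mul]

/-- S8: a splitting -/
theorem exists_split (hr : r = s + t) (N : Matrix (Fin r) (Fin t) ℤ)
    (hN : (N.transpose * N).det ≠ 0) :
    ∃ (A : Matrix (Fin s) (Fin r) ℤ) (A' : Matrix (Fin r) (Fin s) ℤ)
      (C : Matrix (Fin r) (Fin t) ℤ) (C' : Matrix (Fin t) (Fin r) ℤ)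
      (T : Matrix (Fin t) (Fin t) ℤ), A * A' = 1 ∧ A * C = 0 ∧ C' * C = 1 ∧ C' * A' = 0 ∧
        A' * A + C * C' = 1 ∧ N = C * T ∧ T.det ≠ 0 := by
  set L : Submodule ℤ (Fin r → ℤ) := LinearMap.range N.mulVecLin with hL
  obtain ⟨n, S⟩ := Submodule.smithNormalForm (Pi.basisFun ℤ (Fin r)) L
  have hinj : Function.Injective N.mulVecLin := by
    rw [← LinearMap.ker_eq_bot, LinearMap.ker_eq_bot']
    intro x hx
    have h1 : (N.transpose * N).mulVec x = 0 := by
      rw [← Matrix.mulVec_mulVec]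
      have : N.mulVec x = 0 := hx
      rw [this, Matrix.mulVec_zero]
    exact Matrix.eq_zero_of_mulVec_eq_zero hN h1
  have hn : n = t := by
    have h1 : Module.finrank ℤ L = n := by
      rw [Module.finrank_eq_card_basis S.bN, Fintype.card_fin]
    have h2 : Module.finrank ℤ L = t := by
      rw [hL, LinearMap.finrank_range_of_inj hinj, Module.finrank_fin_fun]
    omega
  subst hn
  have hcard : Fintype.card ((Set.range S.f)ᶜ : Set (Fin r)) = s := by
    rw [Fintype.card_compl_set, Fintype.card_fin, Set.card_range_of_injective S.f.injective,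
      Fintype.card_fin]
    omega
  let e2 : Fin s ≃ ((Set.range S.f)ᶜ : Set (Fin r)) := (Fintype.equivFinOfCardEq hcard).symm
  let e1 : Fin n ≃ Set.range S.f := Equiv.ofInjective S.f S.f.injective
  let ψ : Fin n ⊕ Fin s ≃ Fin r := (Equiv.sumCongr e1 e2).trans (Equiv.Set.sumCompl (Set.range S.f))
  have hψ1 : ∀ j : Fin n, ψ (Sum.inl j) = S.f j := fun j => rfl
  have hψ2 : ∀ k : Fin s, ψ (Sum.inr k) ∉ Set.range S.f := fun k => (e2 k).2
  refine S8_basis N (S.bM.reindex ψ.symm) ?_ hN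
  intro j k
  rw [Module.Basis.repr_reindex_apply, Equiv.symm_symm]
  have hmem : (fun i => N i j) ∈ L := by
    refine ⟨Pi.single j 1, ?_⟩
    rw [Matrix.mulVecLin_apply, Matrix.mulVec_single_one]
    rfl
  have h1 := S.bN.sum_repr ⟨_, hmem⟩
  have h2 : (fun i => N i j) = ∑ i, S.bN.repr ⟨_, hmem⟩ i • (S.bN i : Fin r → ℤ) := by
    have := congrArg (fun x : L => (x : Fin r → ℤ)) h1
    simp only [Submodule.coe_sum, Submodule.coe_smul] at this
    exact this.symm
  rw [h2, map_sum, Finsupp.finsetSum_apply]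
  refine Finset.sum_eq_zero fun i _ => ?_
  rw [S.snf, map_smul, map_smul, Module.Basis.repr_self, Finsupp.smul_apply, Finsupp.smul_apply,
    Finsupp.single_apply, if_neg, smul_zero, smul_zero]
  intro h
  exact hψ2 k ⟨i, h⟩

end Pool.Agent.LibRG11
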