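import Pool.Agent.LibRG11.Conv
import Pool.Agent.LibRG11.R9
import Pool.Agent.LibRG11.Cyc

/-!
The height pairing of cycles on a power of an elliptic curve: the theorem.
-/

open WeierstrassCurve Pool.Agent.LibBH2 Pool.Agent.LibIG50 Pool.Agent.LibCHd Pool.Agent.LibGG
  Pool.Agent.LibAC34 Pool.Agent.LibAF11
open scoped Classical

namespace Pool.Agent.LibRG11

/-- **The theorem.** -/
theorem regulators {K : Type} [Field K] [NumberField K] [Algebra K Qb] (E : WeierstrassCurve K)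
    [E.IsElliptic] {F : ℕ → Type} [∀ D, Field (F D)] [∀ D, Algebra Qb (F D)]
    {ξ : ∀ D, Fin D → ((E⁄Qb)⁄(F D)).toAffine.Point}
    (hξ : ∀ D, IsGen 0 (Algebra.ofId Qb (F D)) (fun _ : Fin D => E⁄Qb) (ξ D)) :
    ∃ h : E.toAffine.Point → ℝ, (∀ h', IsCan E h' ↔ h' = h) ∧
      (∀ B, IsHt E ξ h B ↔ ∀ (r D D' : ℕ) (hr : r = D + 1 + D') (c : Fc r D E.toAffine.Point)
        (c' : Fc r D' E.toAffine.Point), Hom0 c → Hom0 c' → B r D D' c c' = pair hr h c c') ∧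
      (∀ G, (NonDeg E ξ h G ↔ Self E G) ∧ (Self E G → Dets E ξ h G)) ∧
      (Module.rank ℤ E.toAffine.Point ≤ 1 → Cyc E) ∧ (Cyc E → Self E ⊤) ∧
      ∀ T : E.toAffine.Point, T ≠ 0 → 2 • T = 0 → HighRank E := by
  have hE : (E⁄Qb).IsElliptic := inferInstanceAs (E.map (algebraMap K Qb)).IsElliptic
  obtain ⟨h, hh⟩ := exists_can E
  refine ⟨h, fun h' => ⟨fun hc => hc.unique hh, fun hc => hc ▸ hh⟩, fun B => isHt_iff hξ hh.1,
    fun G => ⟨⟨self_of_nonDeg hξ hh.1, fun hG => nonDeg hG hξ hh.1 fun P => (hh.eq_zero_iff P).1⟩,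
      fun hG => dets hG hξ hh.1 (fun P => (hh.eq_zero_iff P).1) hh.finite⟩, cyc_of_rank E,
    self_top_of_cyc E, fun T hT hT' n => ?_⟩
  obtain ⟨L, i1, i2, i3, E', i4, G, R, h1, h2⟩ := high_rank K E T hT hT' n
  exact ⟨L, i1, i2, i3, E', i4, G, R, h1, h2⟩

end Pool.Agent.LibRG11
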