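import Pool.Agent.LibRG11.AJ
import Pool.Agent.LibCV66.C6
import Pool.Agent.LibAC6.Final
import Pool.Agent.LibAC6.Pw
import Pool.Agent.LibER66.RankOne
import Pool.Agent.LibAF11.PwIff

/-!
The classes of homologically trivial combinations: torsion classes.
-/

open WeierstrassCurve Pool.Agent.LibBH2 Pool.Agent.LibIG50 Pool.Agent.LibCHd Pool.Agent.LibGG
  Pool.Agent.LibAC34 Pool.Agent.LibAF11
open scoped Classical

namespace Pool.Agent.LibRG11

variable {K : Type} [Field K] [Algebra K Qb] {E : WeierstrassCurve K}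
  {F : Type} [Field F] [Algebra Qb F] {r D : ℕ}

theorem pt0_eq : (LibAF11.pt0 Qb : Prj Qb) = LibAC6.pt0 Qb := rfl

theorem lin_eq (ξ : Fin D → ((E⁄Qb)⁄F).toAffine.Point) (N : Matrix (Fin r) (Fin D) ℤ)
    (g : Fin r → E.toAffine.Point) :
    lin (V := fun _ : Fin D => E⁄Qb) (W := fun _ : Fin r => E⁄Qb) (Algebra.ofId Qb F) ξ N
      (fun i => constPt Qb (g i)) (org _) = ptE E ξ N g := by
  apply pnt_ext
  · funext i
    show constPt F (constPt Qb (g i)) + ((∑ a, N i a • tr (E⁄Qb) (E⁄Qb) (ξ a)) +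
      mp (Algebra.ofId Qb F) 0) = constPt F (constPt Qb (g i)) + ∑ a, N i a • ξ a
    rw [mp_zero, add_zero]
    simp only [tr_self]
  · funext j
    exact map_one (Algebra.ofId Qb F)

theorem clE_eq (ξ : Fin D → ((E⁄Qb)⁄F).toAffine.Point) (c : Fc r D E.toAffine.Point) :
    clE E ξ c = ∑ j : c.support, c j • cl (V := fun _ : Fin D => E⁄Qb)
      (W := fun _ : Fin r => E⁄Qb) (Algebra.ofId Qb F) D ξ (org _) j.1.1
      (fun i => constPt Qb (j.1.2 i)) := by
  unfold clE Finsupp.sum
  rw [← Finset.sum_coe_sort]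
  refine Finset.sum_congr rfl fun j _ => ?_
  unfold cl
  rw [lin_eq]

theorem AJ_const (c : Fc r D E.toAffine.Point) (M : Matrix (Fin r) (Fin D) ℤ) (z : Fin r → ℤ) :
    constHom Qb E (AJ c M z) = ∑ j : c.support, (c j * (M.transpose * j.1.1).det) •
      bdet (W := fun _ : Fin r => E⁄Qb) (E⁄Qb) M z j.1.1 (fun i => constPt Qb (j.1.2 i)) := by
  unfold AJ Finsupp.sum
  rw [map_sum, ← Finset.sum_coe_sort]
  refine Finset.sum_congr rfl fun j _ => ?_
  rw [map_zsmul]
  congr 1
  unfold bdG bdet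
  rw [map_sum]
  refine Finset.sum_congr rfl fun i _ => ?_
  rw [map_zsmul, trk_self]
  rfl

theorem constHom_inj : Function.Injective (constHom Qb E) := by
  intro p q h
  match p, q, h with
  | .zero, .zero, _ => rfl
  | .zero, .some x y h, h' => exact absurd h' (by intro h''; cases h'')
  | .some x y h, .zero, h' => exact absurd h' (by intro h''; cases h'')
  | .some x y h, .some x' y' h', h'' =>
    injection h'' with e1 e2
    have e1' : x = x' := (algebraMap K Qb).injective e1
    have e2' : y = y' := (algebraMap K Qb).injective e2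
    subst e1' e2'
    rfl

theorem tors_const {P : E.toAffine.Point} :
    IsOfFinAddOrder (constHom Qb E P) ↔ IsOfFinAddOrder P := by
  constructor
  · intro h
    rw [isOfFinAddOrder_iff_zsmul_eq_zero] at h ⊢
    obtain ⟨n, hn, h⟩ := h
    refine ⟨n, hn, constHom_inj ?_⟩
    rw [map_zsmul, h, map_zero]
  · intro h
    exact (constHom Qb E).isOfFinAddOrder h

theorem hom0_eq {c : Fc r D E.toAffine.Point} (hc : Hom0 c) (M : Matrix (Fin r) (Fin D) ℤ) :
    ∑ j : c.support, c j * (M.transpose * j.1.1).det ^ 2 = 0 := by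
  rw [← hc M]
  unfold Finsupp.sum
  rw [← Finset.sum_coe_sort c.support fun p => c p * (M.transpose * p.1).det ^ 2]

theorem mat_all (E' : WeierstrassCurve Qb) {r D : ℕ} (M : Matrix (Fin r) (Fin D) ℤ) :
    Mat (fun _ : Fin D => E') (fun _ : Fin r => E') M := fun _ _ h => absurd rfl h

theorem castT {r : ℕ} {W : Fin r → WeierstrassCurve Qb} {Y : Prj Qb} {J : Type} [Fintype J]
    {F : Type} [Field F] [Algebra Qb F] (m : J → ℤ) (u : J → Pnt W Y F) {n n' : ℕ}
    (h : n = n') :
    IsOfFinAddOrder (∑ j, m j • (QuotientAddGroup.mk (cyc (u j)) : CH W Y n)) ↔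
      IsOfFinAddOrder (∑ j, m j • (QuotientAddGroup.mk (cyc (u j)) : CH W Y n')) := by
  subst h
  rfl

theorem allDim_bot : AllDim (fun _ => ⊥) := by
  apply LibAC6.all_dim'
  intro W W' hW hW' P hP Q hQ
  rw [AddSubgroup.mem_bot.1 hP, LibER66.zc_zero_left]
  exact IsOfFinAddOrder.zero

/-- **Torsion classes have torsion Abel-Jacobi image.** -/
theorem aj_of_tors [hE : (E⁄Qb).IsElliptic] {ξ : Fin D → ((E⁄Qb)⁄F).toAffine.Point}
    (hξ : IsGen 0 (Algebra.ofId Qb F) (fun _ : Fin D => E⁄Qb) ξ)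
    {c : Fc r D E.toAffine.Point} (ht : IsOfFinAddOrder (clE E ξ c))
    (M : Matrix (Fin r) (Fin D) ℤ) (z : Fin r → ℤ) : IsOfFinAddOrder (AJ c M z) := by
  rw [clE_eq] at ht
  unfold cl at ht
  rw [castT _ _ (zero_add D).symm] at ht
  have h1 := (LibCV66.converse allDim_bot (W := fun _ : Fin r => E⁄Qb) (fun _ => hE)
    (V := fun _ : Fin D => E⁄Qb) (fun _ => hE) (org _) (Algebra.ofId Qb F) ξ hξ
    (fun j : c.support => c j) (fun j => j.1.1) (fun j i => constPt Qb (j.1.2 i))
    (fun j => mat_all _ _) ht).2 M (mat_all _ _) (E⁄Qb) z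
    (fun i h => absurd rfl h)
  rw [← AJ_const] at h1
  exact tors_const.1 h1

/-- the grid of the group `G` -/
noncomputable def grd (G : AddSubgroup E.toAffine.Point) : Grid := fun W =>
  if hW : E⁄Qb = W then hW ▸ G.map (constHom Qb E) else ⊥

theorem grd_self (G : AddSubgroup E.toAffine.Point) :
    grd G (E⁄Qb) = G.map (constHom Qb E) := dif_pos rfl

theorem grd_ne (G : AddSubgroup E.toAffine.Point) {W : WeierstrassCurve Qb} (h : E⁄Qb ≠ W) :
    grd G W = ⊥ := dif_neg h

theorem pw_grd [hE : (E⁄Qb).IsElliptic] {G : AddSubgroup E.toAffine.Point} (hG : Self E G) :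
    Pw (grd G) := by
  intro W W' hW hW' P hP Q hQ
  by_cases h1 : E⁄Qb = W
  · by_cases h2 : E⁄Qb = W'
    · subst h1
      subst h2
      rw [grd_self] at hP hQ
      obtain ⟨P', hP', rfl⟩ := hP
      obtain ⟨Q', hQ', rfl⟩ := hQ
      have h3 := hG ![P', Q'] (by
        intro i
        fin_cases i
        · exact hP'
        · exact hQ')
      let W : Fin 2 → WeierstrassCurve Qb := fun _ => E⁄Qb
      have hWW : ∀ i, (W i).IsElliptic := fun _ => hE
      let a : LibIG50.Pts W := fun i => constPt Qb (![P', Q'] i)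
      have h4 : IsOfFinAddOrder (LibAC6.ptC a - LibAC6.ptC (Function.update a 1 0) -
          LibAC6.ptC (Function.update a 0 0) + LibAC6.ptC 0) := by
        unfold LibAF11.sq at h3
        rw [ptC_eq, ptC_eq, ptC_eq, ptC_eq] at h3
        exact h3
      have h5 := (LibAC6.thCH hWW).isOfFinAddOrder h4
      rw [map_add, map_sub, map_sub, LibAC6.thCH_ptC, LibAC6.thCH_ptC, LibAC6.thCH_ptC,
        LibAC6.thCH_ptC] at h5
      exact h5
    · rw [grd_ne G h2] at hQ
      rw [AddSubgroup.mem_bot.1 hQ, LibER66.zc_zero_right]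
      exact IsOfFinAddOrder.zero
  · rw [grd_ne G h1] at hP
    rw [AddSubgroup.mem_bot.1 hP, LibER66.zc_zero_left]
    exact IsOfFinAddOrder.zero

/-- **Combinations with torsion Abel-Jacobi image are torsion.** -/
theorem tors_of_aj [hE : (E⁄Qb).IsElliptic] {G : AddSubgroup E.toAffine.Point} (hG : Self E G)
    {ξ : Fin D → ((E⁄Qb)⁄F).toAffine.Point}
    (hξ : IsGen 0 (Algebra.ofId Qb F) (fun _ : Fin D => E⁄Qb) ξ)
    {c : Fc r D E.toAffine.Point} (hc : Hom0 c) (hcG : On G c)
    (haj : ∀ M z, IsOfFinAddOrder (AJ c M z)) : IsOfFinAddOrder (clE E ξ c) := by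
  rw [clE_eq]
  have h1 := LibAC6.all_dim' (pw_grd hG) r (fun _ => E⁄Qb) (fun _ => hE) D (fun _ => E⁄Qb)
    (fun _ => hE) (pt0 Qb) 0 Qb (org _) F (Algebra.ofId Qb F) ξ hξ c.support (fun j => c j)
    (fun j => j.1.1) (fun j i => constPt Qb (j.1.2 i)) (fun j => mat_all _ _) (fun j i => by
      rw [grd_self]
      exact ⟨j.1.2 i, hcG _ j.2 i, rfl⟩) (fun M _ => hom0_eq hc M) (fun M _ E' z hz => by
      by_cases h2 : E⁄Qb = E'
      · subst h2
        rw [← AJ_const]
        exact tors_const.2 (haj M z)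
      · have h3 : ∑ j : c.support, (c j * (M.transpose * j.1.1).det) •
            bdet (W := fun _ : Fin r => E⁄Qb) E' M z j.1.1
              (fun i => constPt Qb (j.1.2 i)) = 0 := by
          refine Finset.sum_eq_zero fun j _ => ?_
          unfold bdet
          rw [Finset.sum_eq_zero, smul_zero]
          intro i _
          rw [trk_ne h2, smul_zero]
        rw [h3]
        exact IsOfFinAddOrder.zero)
  unfold cl at h1 ⊢
  rwa [castT _ _ (zero_add D)] at h1

end Pool.Agent.LibRG11
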