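import Pool.Agent.LibRG11.Tors
import Pool.Agent.LibAC34.G

/-!
Classes of translates: rules.
-/

open WeierstrassCurve Pool.Agent.LibBH2 Pool.Agent.LibIG50 Pool.Agent.LibCHd Pool.Agent.LibGG
  Pool.Agent.LibAC34 Pool.Agent.LibAF11
open scoped Classical

namespace Pool.Agent.LibRG11

section comb
variable {G : Type} [AddCommGroup G] {r s t D D' : ℕ}

/-- the combinations with `Hom0` -/
def HomG (r D : ℕ) (G : Type) : AddSubgroup (Fc r D G) where
  carrier := {c | Hom0 c}
  zero_mem' M := Finsupp.sum_zero_index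
  add_mem' := by
    intro a b ha hb M
    rw [Finsupp.sum_add_index' (fun _ => zero_mul _) (fun _ _ _ => add_mul _ _ _), ha M, hb M,
      add_zero]
  neg_mem' := by
    intro a ha M
    have h1 : (-a).sum (fun p m => m * (M.transpose * p.1).det ^ 2) =
        -(a.sum fun p m => m * (M.transpose * p.1).det ^ 2) := by
      rw [Finsupp.sum_neg_index (fun _ => zero_mul _), Finsupp.sum, Finsupp.sum,
        ← Finset.sum_neg_distrib]
      exact Finset.sum_congr rfl fun p _ => neg_mul _ _
    rw [h1, ha M, neg_zero]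

/-- the difference of a translate and the cycle itself -/
noncomputable def dl (N : Matrix (Fin r) (Fin D) ℤ) (g : Fin r → G) : Fc r D G :=
  Finsupp.single (N, g) 1 - Finsupp.single (N, 0) 1

theorem dl_hom0 (N : Matrix (Fin r) (Fin D) ℤ) (g : Fin r → G) : Hom0 (dl N g) := by
  intro M
  unfold dl
  rw [Finsupp.sum_sub_index (fun _ _ _ => sub_mul _ _ _), Finsupp.sum_single_index (zero_mul _),
    Finsupp.sum_single_index (zero_mul _), sub_self]

/-- the combination with the same matrices and no translations -/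
noncomputable def z0 (c : Fc r D G) : Fc r D G := c.mapDomain fun p => (p.1, 0)

theorem z0_hom0 {c : Fc r D G} (hc : Hom0 c) : Hom0 (z0 c) := by
  intro M
  unfold z0
  rw [Finsupp.sum_mapDomain_index (fun _ => zero_mul _) (fun _ _ _ => add_mul _ _ _)]
  exact hc M

theorem eq_z0 (c : Fc r D G) : c = z0 c + ∑ p ∈ c.support, c p • dl p.1 p.2 := by
  have h1 : ∑ p ∈ c.support, c p • dl p.1 p.2 = c - z0 c := by
    unfold dl
    simp only [smul_sub]
    rw [Finset.sum_sub_distrib]
    congr 1
    · simp only [Finsupp.smul_single, smul_eq_mul, mul_one]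
      exact Finsupp.sum_single c
    · simp only [Finsupp.smul_single, smul_eq_mul, mul_one]
      rfl
  rw [h1]
  abel

end comb

variable {K : Type} [Field K] [Algebra K Qb] {E : WeierstrassCurve K}
  {F : Type} [Field F] [Algebra Qb F] {r D : ℕ}

/-- the class of one translate -/
noncomputable def c1 (ξ : Fin D → ((E⁄Qb)⁄F).toAffine.Point) (N : Matrix (Fin r) (Fin D) ℤ)
    (g : Fin r → E.toAffine.Point) : CH (fun _ : Fin r => E⁄Qb) (pt0 Qb) D :=
  QuotientAddGroup.mk (cyc (ptE E ξ N g))

theorem clE_sum (ξ : Fin D → ((E⁄Qb)⁄F).toAffine.Point) (c : Fc r D E.toAffine.Point) :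
    clE E ξ c = c.sum fun p m => m • c1 ξ p.1 p.2 := rfl

theorem clE_add (ξ : Fin D → ((E⁄Qb)⁄F).toAffine.Point) (c c' : Fc r D E.toAffine.Point) :
    clE E ξ (c + c') = clE E ξ c + clE E ξ c' := by
  rw [clE_sum, clE_sum, clE_sum]
  exact Finsupp.sum_add_index' (fun _ => zero_zsmul _) (fun _ _ _ => add_zsmul _ _ _)

theorem clE_single (ξ : Fin D → ((E⁄Qb)⁄F).toAffine.Point) (N : Matrix (Fin r) (Fin D) ℤ)
    (g : Fin r → E.toAffine.Point) (m : ℤ) :
    clE E ξ (Finsupp.single (N, g) m) = m • c1 ξ N g := by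
  rw [clE_sum]
  exact Finsupp.sum_single_index (zero_zsmul _)

/-- the class as a homomorphism -/
noncomputable def clH (ξ : Fin D → ((E⁄Qb)⁄F).toAffine.Point) :
    Fc r D E.toAffine.Point →+ CH (fun _ : Fin r => E⁄Qb) (pt0 Qb) D :=
  AddMonoidHom.mk' (clE E ξ) (clE_add ξ)

theorem clH_dl (ξ : Fin D → ((E⁄Qb)⁄F).toAffine.Point) (N : Matrix (Fin r) (Fin D) ℤ)
    (g : Fin r → E.toAffine.Point) : clH ξ (dl N g) = c1 ξ N g - c1 ξ N 0 := by
  unfold dl
  rw [map_sub]
  show clE E ξ _ - clE E ξ _ = _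
  rw [clE_single, clE_single, one_smul, one_smul]

/-- the point `g` of `E ^ r` -/
noncomputable def ptu (g : Fin r → E.toAffine.Point) :
    Pnt (fun _ : Fin r => E⁄Qb) (pt0 Qb) Qb where
  z i := constPt Qb (constPt Qb (g i))
  y _ := 1
  y_ne h := one_ne_zero (congrFun h 0)
  mem _ h := h.elim

theorem lin_eq' (ξ : Fin D → ((E⁄Qb)⁄F).toAffine.Point) (N : Matrix (Fin r) (Fin D) ℤ)
    (g : Fin r → E.toAffine.Point) :
    lin (V := fun _ : Fin D => E⁄Qb) (W := fun _ : Fin r => E⁄Qb) (Algebra.ofId Qb F) ξ N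
      (fun _ => 0) (ptu g) = ptE E ξ N g := by
  apply pnt_ext
  · funext i
    show constPt F 0 + ((∑ a, N i a • tr (E⁄Qb) (E⁄Qb) (ξ a)) +
      mp (Algebra.ofId Qb F) (constPt Qb (constPt Qb (g i)))) =
        constPt F (constPt Qb (g i)) + ∑ a, N i a • ξ a
    have e0 : (constPt F (0 : (E⁄Qb).toAffine.Point) : ((E⁄Qb)⁄F).toAffine.Point) = 0 := rfl
    rw [e0, zero_add, mp_constPt, add_comm]
    simp only [tr_self]
  · funext j
    exact map_one (Algebra.ofId Qb F)

/-- **Translates of homologically trivial combinations of subgroups are torsion.** -/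
theorem tors_transl [hE : (E⁄Qb).IsElliptic] {ξ : Fin D → ((E⁄Qb)⁄F).toAffine.Point}
    (hξ : IsGen 0 (Algebra.ofId Qb F) (fun _ : Fin D => E⁄Qb) ξ)
    {c : Fc r D E.toAffine.Point} (hc : Hom0 c) (g : Fin r → E.toAffine.Point) :
    IsOfFinAddOrder (c.sum fun p m => m • c1 ξ p.1 g) := by
  have h0 : c.sum (fun p m => m • c1 ξ p.1 g) =
      ∑ j : c.support, c j • cl (V := fun _ : Fin D => E⁄Qb)
        (W := fun _ : Fin r => E⁄Qb) (Algebra.ofId Qb F) D ξ (ptu g) j.1.1 (fun _ => 0) := by
    unfold Finsupp.sum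
    rw [← Finset.sum_coe_sort]
    refine Finset.sum_congr rfl fun j _ => ?_
    unfold cl c1
    rw [lin_eq']
  rw [h0]
  have h1 := allDim_bot r (fun _ => E⁄Qb) (fun _ => hE) D (fun _ => E⁄Qb)
    (fun _ => hE) (pt0 Qb) 0 Qb (ptu g) F (Algebra.ofId Qb F) ξ hξ c.support (fun j => c j)
    (fun j => j.1.1) (fun j i => 0) (fun j => mat_all _ _) (fun j i => zero_mem _)
    (fun M _ => hom0_eq hc M) (fun M _ E' z hz => by
      have h3 : ∑ j : c.support, (c j * (M.transpose * j.1.1).det) •
          bdet (W := fun _ : Fin r => E⁄Qb) E' M z j.1.1 (fun i => 0) = 0 := by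
        refine Finset.sum_eq_zero fun j _ => ?_
        unfold bdet
        rw [Finset.sum_eq_zero, smul_zero]
        intro i _
        have e0 : trk (E⁄Qb) E' (0 : (E⁄Qb).toAffine.Point) = 0 := by
          by_cases h : E⁄Qb = E'
          · subst h
            rw [trk_self]
          · rw [trk_ne h]
        rw [e0, smul_zero]
      rw [h3]
      exact IsOfFinAddOrder.zero)
  unfold cl at h1 ⊢
  rwa [castT _ _ (zero_add D)] at h1

theorem c1_add [(E⁄Qb).IsElliptic] {ξ : Fin D → ((E⁄Qb)⁄F).toAffine.Point}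
    (hξ : IsGen 0 (Algebra.ofId Qb F) (fun _ : Fin D => E⁄Qb) ξ)
    (N : Matrix (Fin r) (Fin D) ℤ) (g : Fin r → E.toAffine.Point)
    (h : Fin D → E.toAffine.Point) :
    c1 ξ N (g + fun i => ∑ a, N i a • h a) = c1 ξ N g := by
  have key : ∀ s : Finset (Fin D), c1 ξ N (g + fun i => ∑ a ∈ s, N i a • h a) = c1 ξ N g := by
    intro s
    induction s using Finset.induction_on with
    | empty =>
      congr 1
      funext i
      rw [Pi.add_apply, Finset.sum_empty, add_zero]
    | insert a s ha ih =>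
      rw [← ih]
      have h1 := G_tr hξ (W := fun _ : Fin r => E⁄Qb) (org _) N
        (fun i => constPt Qb (g i + ∑ a ∈ s, N i a • h a)) a (constPt Qb (h a))
      rw [zero_add] at h1
      unfold cl at h1
      have h2 : ((fun i => constPt Qb (g i + ∑ a ∈ s, N i a • h a)) +
          (fun n => N n a • trk (E⁄Qb) (E⁄Qb) (constPt Qb (h a))) :
            Pts (fun _ : Fin r => E⁄Qb)) =
          fun i => constPt Qb ((g + fun i => ∑ a ∈ insert a s, N i a • h a) i) := by
        funext i
        rw [Pi.add_apply, Pi.add_apply, trk_self, Finset.sum_insert ha]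
        show constHom Qb E _ + N i a • constHom Qb E _ = constHom Qb E _
        rw [← map_zsmul, ← map_add]
        congr 1
        abel
      rw [h2, lin_eq, lin_eq] at h1
      exact h1
  exact key Finset.univ

end Pool.Agent.LibRG11
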