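import Pool.Agent.LibRG11.Trans
import Pool.Agent.LibRG11.S8
import Pool.Agent.LibHR84.Lin

/-!
Uniqueness of the height pairing.
-/

open WeierstrassCurve Pool.Agent.LibBH2 Pool.Agent.LibIG50 Pool.Agent.LibCHd Pool.Agent.LibGG
  Pool.Agent.LibAC34 Pool.Agent.LibAF11
open scoped Classical

namespace Pool.Agent.LibRG11

section comb
variable {G : Type} [AddCommGroup G] {r s t D D' : ℕ}

theorem push_dl (A : Matrix (Fin s) (Fin r) ℤ) (N : Matrix (Fin r) (Fin D) ℤ) (g : Fin r → G) :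
    push A (dl N g) = dl (A * N) fun i => ∑ j, A i j • g j := by
  unfold push dl
  rw [← Finsupp.mapDomain.addMonoidHom_apply, map_sub, Finsupp.mapDomain.addMonoidHom_apply,
    Finsupp.mapDomain.addMonoidHom_apply, Finsupp.mapDomain_single, Finsupp.mapDomain_single]
  congr 2
  show (A * N, fun i => ∑ j, A i j • (0 : Fin r → G) j) = (A * N, 0)
  congr 1
  funext i
  simp

theorem pull_dl (B : Matrix (Fin r) (Fin s) ℤ) (C : Matrix (Fin r) (Fin t) ℤ) (a : Fin s → G) :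
    pull B C (dl (0 : Matrix (Fin s) (Fin 0) ℤ) a) = dl C fun i => ∑ j, B i j • a j := by
  have h1 : (Matrix.of fun i => Fin.append (C i) ((B * (0 : Matrix (Fin s) (Fin 0) ℤ)) i) :
      Matrix (Fin r) (Fin (t + 0)) ℤ) = C := by
    ext i j
    show Fin.append (C i) ((B * (0 : Matrix (Fin s) (Fin 0) ℤ)) i) j = C i j
    rw [Fin.append_right_nil _ _ rfl]
    rfl
  unfold pull dl
  rw [← Finsupp.mapDomain.addMonoidHom_apply, map_sub, Finsupp.mapDomain.addMonoidHom_apply,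
    Finsupp.mapDomain.addMonoidHom_apply, Finsupp.mapDomain_single, Finsupp.mapDomain_single]
  rw [h1]
  congr 2
  show (C, fun i => ∑ j, B i j • (0 : Fin s → G) j) = (C, 0)
  congr 1
  funext i
  simp

theorem fin_sub {A : Type*} [AddCommGroup A] {x y : A} (hx : IsOfFinAddOrder x)
    (hy : IsOfFinAddOrder y) : IsOfFinAddOrder (x - y) := by
  rw [sub_eq_add_neg]
  exact hx.add hy.neg

theorem df_eq (P : G) : df P = dl (0 : Matrix (Fin 1) (Fin 0) ℤ) fun _ => P := rfl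

theorem det_zero {M N : Matrix (Fin r) (Fin D) ℤ} (h : (N.transpose * N).det = 0) :
    (M.transpose * N).det = 0 := by
  obtain ⟨v, hv, h1⟩ := LibHR84.dep_of_det h
  refine Matrix.exists_mulVec_eq_zero_iff.1 ⟨v, hv, ?_⟩
  rw [← Matrix.mulVec_mulVec, h1, Matrix.mulVec_zero]

end comb

variable {K : Type} [Field K] [Algebra K Qb] {E : WeierstrassCurve K}

section cls
variable {F : Type} [Field F] [Algebra Qb F] {r D : ℕ}

theorem tors_z0 [(E⁄Qb).IsElliptic] {ξ : Fin D → ((E⁄Qb)⁄F).toAffine.Point}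
    (hξ : IsGen 0 (Algebra.ofId Qb F) (fun _ : Fin D => E⁄Qb) ξ)
    {c : Fc r D E.toAffine.Point} (hc : Hom0 c) : IsOfFinAddOrder (clE E ξ (z0 c)) := by
  have h1 := tors_transl hξ hc 0
  have h2 : clE E ξ (z0 c) = c.sum fun p m => m • c1 ξ p.1 0 := by
    rw [clE_sum]
    unfold z0
    rw [Finsupp.sum_mapDomain_index (fun _ => zero_zsmul _) (fun _ _ _ => add_zsmul _ _ _)]
  rwa [h2]

theorem tors_c1 [(E⁄Qb).IsElliptic] {ξ : Fin D → ((E⁄Qb)⁄F).toAffine.Point}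
    (hξ : IsGen 0 (Algebra.ofId Qb F) (fun _ : Fin D => E⁄Qb) ξ)
    {N : Matrix (Fin r) (Fin D) ℤ} (hN : (N.transpose * N).det = 0)
    (g : Fin r → E.toAffine.Point) : IsOfFinAddOrder (c1 ξ N g) := by
  have h1 := tors_transl hξ (c := Finsupp.single (N, 0) 1) (by
    intro M
    rw [Finsupp.sum_single_index (zero_mul _), det_zero hN]
    ring) g
  rwa [Finsupp.sum_single_index (zero_zsmul _), one_zsmul] at h1

theorem tors_dl [(E⁄Qb).IsElliptic] {ξ : Fin D → ((E⁄Qb)⁄F).toAffine.Point}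
    (hξ : IsGen 0 (Algebra.ofId Qb F) (fun _ : Fin D => E⁄Qb) ξ)
    {N : Matrix (Fin r) (Fin D) ℤ} (hN : (N.transpose * N).det = 0)
    (g : Fin r → E.toAffine.Point) : IsOfFinAddOrder (clE E ξ (dl N g)) := by
  have h1 : clE E ξ (dl N g) = c1 ξ N g - c1 ξ N 0 := clH_dl ξ N g
  rw [h1]
  exact fin_sub (tors_c1 hξ hN g) (tors_c1 hξ hN 0)

theorem tors_mul_c1 [(E⁄Qb).IsElliptic] {ξ : Fin D → ((E⁄Qb)⁄F).toAffine.Point}
    (hξ : IsGen 0 (Algebra.ofId Qb F) (fun _ : Fin D => E⁄Qb) ξ)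
    (C : Matrix (Fin r) (Fin D) ℤ) (T : Matrix (Fin D) (Fin D) ℤ)
    (g : Fin r → E.toAffine.Point) :
    IsOfFinAddOrder (c1 ξ (C * T) g - T.det ^ 2 • c1 ξ C g) := by
  have h1 := tors_transl hξ (c := Finsupp.single (C * T, 0) 1 - Finsupp.single (C, 0) (T.det ^ 2)) (by
    intro M
    rw [Finsupp.sum_sub_index (fun _ _ _ => sub_mul _ _ _), Finsupp.sum_single_index (zero_mul _),
      Finsupp.sum_single_index (zero_mul _)]
    show 1 * (M.transpose * (C * T)).det ^ 2 - T.det ^ 2 * (M.transpose * C).det ^ 2 = 0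
    rw [← Matrix.mul_assoc, Matrix.det_mul]
    ring) g
  rwa [Finsupp.sum_sub_index (fun _ _ _ => by rw [sub_zsmul, sub_eq_add_neg]),
    Finsupp.sum_single_index (zero_zsmul _), Finsupp.sum_single_index (zero_zsmul _),
    one_zsmul] at h1

theorem tors_mul_dl [(E⁄Qb).IsElliptic] {ξ : Fin D → ((E⁄Qb)⁄F).toAffine.Point}
    (hξ : IsGen 0 (Algebra.ofId Qb F) (fun _ : Fin D => E⁄Qb) ξ)
    (C : Matrix (Fin r) (Fin D) ℤ) (T : Matrix (Fin D) (Fin D) ℤ)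
    (g : Fin r → E.toAffine.Point) (g' : Fin r → E.toAffine.Point)
    (hg : ∃ h : Fin D → E.toAffine.Point, g = g' + fun i => ∑ a, C i a • h a) :
    IsOfFinAddOrder (clE E ξ (dl (C * T) g - T.det ^ 2 • dl C g')) := by
  have h1 : clE E ξ (dl (C * T) g - T.det ^ 2 • dl C g') =
      (c1 ξ (C * T) g - T.det ^ 2 • c1 ξ C g) - (c1 ξ (C * T) 0 - T.det ^ 2 • c1 ξ C 0) := by
    obtain ⟨h, hg⟩ := hg
    have h3 : c1 ξ C g = c1 ξ C g' := by
      rw [hg]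
      exact c1_add hξ C g' h
    have h2 : clE E ξ (dl (C * T) g - T.det ^ 2 • dl C g') =
        clH ξ (dl (C * T) g - T.det ^ 2 • dl C g') := rfl
    rw [h2, map_sub, map_zsmul, clH_dl, clH_dl, ← h3, zsmul_sub]
    abel
  rw [h1]
  exact fin_sub (tors_mul_c1 hξ C T g) (tors_mul_c1 hξ C T 0)

end cls

section ht
variable {F : ℕ → Type} [∀ D, Field (F D)] [∀ D, Algebra Qb (F D)]
  {ξ : ∀ D, Fin D → ((E⁄Qb)⁄(F D)).toAffine.Point} {h : E.toAffine.Point → ℝ}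
  {B : ∀ r D D' : ℕ, Fc r D E.toAffine.Point → Fc r D' E.toAffine.Point → ℝ}
  {r D D' : ℕ}

/-- the pairing with a fixed combination -/
noncomputable def IsHt.hom (hB : IsHt E ξ h B) (hr : r = D + 1 + D')
    {c' : Fc r D' E.toAffine.Point} (hc' : Hom0 c') : HomG r D E.toAffine.Point →+ ℝ :=
  AddMonoidHom.mk' (fun c => B r D D' c.1 c') fun c₁ c₂ =>
    hB.add r D D' hr c₁.1 c₂.1 c' c₁.2 c₂.2 hc'

theorem IsHt.expand [(E⁄Qb).IsElliptic] (hB : IsHt E ξ h B)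
    (hξ : ∀ D, IsGen 0 (Algebra.ofId Qb (F D)) (fun _ : Fin D => E⁄Qb) (ξ D))
    (hr : r = D + 1 + D') {c : Fc r D E.toAffine.Point} {c' : Fc r D' E.toAffine.Point}
    (hc : Hom0 c) (hc' : Hom0 c') :
    B r D D' c c' = ∑ p ∈ c.support, c p * B r D D' (dl p.1 p.2) c' := by
  have h1 : (⟨c, hc⟩ : HomG r D E.toAffine.Point) = ⟨z0 c, z0_hom0 hc⟩ +
      ∑ p ∈ c.support, c p • ⟨dl p.1 p.2, dl_hom0 _ _⟩ := by
    apply Subtype.ext
    rw [AddSubgroup.coe_add, AddSubgroup.val_finsetSum]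
    exact eq_z0 c
  have h2 : hB.hom hr hc' ⟨c, hc⟩ = B r D D' c c' := rfl
  rw [← h2, h1, map_add, map_sum]
  have h3 : hB.hom hr hc' ⟨z0 c, z0_hom0 hc⟩ = 0 :=
    hB.tors r D D' hr _ _ (z0_hom0 hc) hc' (tors_z0 (hξ D) hc)
  rw [h3, zero_add]
  refine Finset.sum_congr rfl fun p _ => ?_
  rw [map_zsmul, zsmul_eq_mul]
  rfl

theorem IsHt.step [(E⁄Qb).IsElliptic] (hB : IsHt E ξ h B)
    (hξ : ∀ D, IsGen 0 (Algebra.ofId Qb (F D)) (fun _ : Fin D => E⁄Qb) (ξ D))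
    (hr : r = D + 1 + D') {A : Matrix (Fin (D + 1)) (Fin r) ℤ} {A' : Matrix (Fin r) (Fin (D + 1)) ℤ}
    {C : Matrix (Fin r) (Fin D') ℤ} {C' : Matrix (Fin D') (Fin r) ℤ}
    (T : Matrix (Fin D') (Fin D') ℤ) (h1 : A * A' = 1) (h2 : A * C = 0) (h3 : C' * C = 1)
    (h4 : A' * A + C * C' = 1) {c : Fc r D E.toAffine.Point} (hc : Hom0 c)
    (g : Fin r → E.toAffine.Point) :
    B r D D' c (dl (C * T) g) =
      T.det ^ 2 * B (D + 1) D 0 (push A c) (dl 0 fun i => ∑ j, A i j • g j) := by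
  have hr' : r = D' + 1 + D := by omega
  let g' : Fin r → E.toAffine.Point := fun i => ∑ j, A' i j • ∑ l, A j l • g l
  have e1 : g = g' + fun i => ∑ a, C i a • ∑ l, C' a l • g l := by
    funext i
    rw [Pi.add_apply]
    show g i = (∑ j, A' i j • ∑ l, A j l • g l) + ∑ a, C i a • ∑ l, C' a l • g l
    have e2 : ∀ {m : ℕ} (X : Matrix (Fin r) (Fin m) ℤ) (Y : Matrix (Fin m) (Fin r) ℤ),
        (∑ j, X i j • ∑ l, Y j l • g l) = ∑ l, (X * Y) i l • g l := by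
      intro m X Y
      simp only [Finset.smul_sum, Matrix.mul_apply, Finset.sum_smul, smul_smul]
      exact Finset.sum_comm
    rw [e2, e2, ← Finset.sum_add_distrib]
    have e3 : ∀ l, (A' * A) i l • g l + (C * C') i l • g l = (1 : Matrix (Fin r) (Fin r) ℤ) i l • g l := by
      intro l
      rw [← h4, Matrix.add_apply, add_smul]
    rw [Finset.sum_congr rfl fun l _ => e3 l]
    simp [Matrix.one_apply]
  have e4 := tors_mul_dl (hξ D') C T g g' ⟨_, e1⟩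
  have hx : Hom0 (dl (C * T) g - T.det ^ 2 • dl C g') :=
    (HomG r D' _).sub_mem (dl_hom0 _ _) ((HomG r D' _).zsmul_mem (dl_hom0 _ _) _)
  have e5 := hB.tors r D' D hr' _ c hx hc e4
  have e6 : hB.hom hr' hc (⟨dl (C * T) g, dl_hom0 _ _⟩ - T.det ^ 2 • ⟨dl C g', dl_hom0 _ _⟩) = 0 :=
    e5
  rw [map_sub, map_zsmul, sub_eq_zero, zsmul_eq_mul] at e6
  have e7 : B r D' D (dl (C * T) g) c = (T.det ^ 2 : ℤ) * B r D' D (dl C g') c := e6
  rw [hB.comm r D D' hr c _ hc (dl_hom0 _ _), e7, ← hB.comm r D D' hr c _ hc (dl_hom0 _ _)]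
  have e8 := hB.proj r (D + 1) D' D 0 hr rfl A A' C C' h1 h2 h3 c
    (dl 0 fun i => ∑ j, A i j • g j) hc (dl_hom0 _ _)
  rw [pull_dl] at e8
  rw [← e8]
  push_cast
  rfl

theorem IsHt.eq_zero [(E⁄Qb).IsElliptic] (hB : IsHt E ξ h B)
    (hξ : ∀ D, IsGen 0 (Algebra.ofId Qb (F D)) (fun _ : Fin D => E⁄Qb) (ξ D))
    (hr : r = D + 1 + D') {N : Matrix (Fin r) (Fin D') ℤ} (hN : (N.transpose * N).det = 0)
    {c : Fc r D E.toAffine.Point} (hc : Hom0 c) (g : Fin r → E.toAffine.Point) :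
    B r D D' c (dl N g) = 0 := by
  rw [hB.comm r D D' hr c _ hc (dl_hom0 _ _)]
  exact hB.tors r D' D (by omega) _ c (dl_hom0 _ _) hc (tors_dl (hξ D') hN g)

/-- **Uniqueness.** -/
theorem IsHt.unique [(E⁄Qb).IsElliptic] (hB : IsHt E ξ h B)
    {B' : ∀ r D D' : ℕ, Fc r D E.toAffine.Point → Fc r D' E.toAffine.Point → ℝ}
    (hB' : IsHt E ξ h B')
    (hξ : ∀ D, IsGen 0 (Algebra.ofId Qb (F D)) (fun _ : Fin D => E⁄Qb) (ξ D))
    (hr : r = D + 1 + D') {c : Fc r D E.toAffine.Point} {c' : Fc r D' E.toAffine.Point}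
    (hc : Hom0 c) (hc' : Hom0 c') : B r D D' c c' = B' r D D' c c' := by
  rw [hB.expand hξ hr hc hc', hB'.expand hξ hr hc hc']
  refine Finset.sum_congr rfl fun p _ => ?_
  congr 1
  have hr' : r = D' + 1 + D := by omega
  rw [hB.comm r D D' hr _ _ (dl_hom0 _ _) hc', hB'.comm r D D' hr _ _ (dl_hom0 _ _) hc',
    hB.expand hξ hr' hc' (dl_hom0 _ _), hB'.expand hξ hr' hc' (dl_hom0 _ _)]
  refine Finset.sum_congr rfl fun p' _ => ?_
  congr 1
  rw [hB.comm r D' D hr' _ _ (dl_hom0 _ _) (dl_hom0 _ _),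
    hB'.comm r D' D hr' _ _ (dl_hom0 _ _) (dl_hom0 _ _)]
  obtain ⟨N, g⟩ := p
  obtain ⟨N', g'⟩ := p'
  show B r D D' (dl N g) (dl N' g') = B' r D D' (dl N g) (dl N' g')
  by_cases hN : (N'.transpose * N').det = 0
  · rw [hB.eq_zero hξ hr hN (dl_hom0 _ _), hB'.eq_zero hξ hr hN (dl_hom0 _ _)]
  obtain ⟨A, A', C, C', T, h1, h2, h3, -, h4, rfl, -⟩ := exists_split hr N' hN
  rw [hB.step hξ hr T h1 h2 h3 h4 (dl_hom0 _ _), hB'.step hξ hr T h1 h2 h3 h4 (dl_hom0 _ _),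
    push_dl]
  congr 1
  have hs : D + 1 = D + 1 + 0 := rfl
  have hs' : D + 1 = 0 + 1 + D := by omega
  rw [hB.comm (D + 1) D 0 hs _ _ (dl_hom0 _ _) (dl_hom0 _ _),
    hB'.comm (D + 1) D 0 hs _ _ (dl_hom0 _ _) (dl_hom0 _ _)]
  by_cases hM : ((A * N).transpose * (A * N)).det = 0
  · rw [hB.eq_zero hξ hs' hM (dl_hom0 _ _), hB'.eq_zero hξ hs' hM (dl_hom0 _ _)]
  obtain ⟨A₁, A₁', C₁, C₁', T₁, k1, k2, k3, -, k4, k5, -⟩ := exists_split hs' (A * N) hM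
  rw [k5, hB.step hξ hs' T₁ k1 k2 k3 k4 (dl_hom0 _ _),
    hB'.step hξ hs' T₁ k1 k2 k3 k4 (dl_hom0 _ _), push_dl]
  congr 1
  have e1 : ∀ (X : Matrix (Fin (0 + 1)) (Fin 0) ℤ) (v : Fin (0 + 1) → E.toAffine.Point),
      (dl X v : Fc (0 + 1) 0 E.toAffine.Point) = df (v 0) := by
    intro X v
    rw [df_eq]
    have e2 : X = 0 := by
      ext i j
      exact j.elim0
    rw [e2]
    congr 1
    funext i
    congr 1
    exact Subsingleton.elim (α := Fin 1) _ _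
  rw [e1, e1]
  exact (hB.nrm _ _).trans (hB'.nrm _ _).symm

end ht

end Pool.Agent.LibRG11
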